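import Mathlib
import Pool.Agent.Helper25_TD.Defs

/-!
# A clock that is invariant under Turing equivalence up to a small error

`Settled x m n` says that by length `n` the real `x` has met all those of the first `m + 1`
recursively enumerable sets of finite binary strings which it ever meets. The set `Phase x`
consists of those lengths `n` at which the clock of `x` stands between an index of the form
`ack (4 * k) (4 * k)` and `ack (4 * k + 2) (4 * k + 2)`.
-/

set_option autoImplicit false

namespace Pool.Agent.Helper56TB

open Pool.Agent.Helper25TD

/-- the `e`-th recursively enumerable set of finite binary strings, that is, the domain of the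
`e`-th partial recursive function -/
def RE (e : ℕ) : Set (List Bool) :=
  {l | ((Denumerable.ofNat Nat.Partrec.Code e).eval (Encodable.encode l)).Dom}

/-- the initial segment of length `n` of `x` belongs to the `e`-th recursively enumerable set -/
def Meets (e : ℕ) (x : ℕ → Bool) (n : ℕ) : Prop := pre x n ∈ RE e

/-- Each set `RE e` with `e ≤ m` that contains an initial segment of `x` contains one of length
at most `n`. -/
def Settled (x : ℕ → Bool) (m n : ℕ) : Prop :=
  ∀ e ≤ m, (∃ l, Meets e x l) → ∃ l ≤ n, Meets e x l

/-- The set of all `n` such that for some `k` the real `x` is settled by length `n` for the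
indices up to `ack (4 * k) (4 * k)`, but not for the indices up to
`ack (4 * k + 2) (4 * k + 2)`. Here `ack` is the Ackermann function. -/
def Phase (x : ℕ → Bool) : Set ℕ :=
  {n | ∃ k, Settled x (ack (4 * k) (4 * k)) n ∧ ¬ Settled x (ack (4 * k + 2) (4 * k + 2)) n}

/-- the subset of the natural numbers given by `x` is contained in `E` up to finitely many
elements -/
def AlmostIn (x : ℕ → Bool) (E : Set ℕ) : Prop := ∃ N, ∀ n ≥ N, x n = true → n ∈ E

/-- The set of all `x` that almost contain some element of `B`: the closure of `B` under
supersets and finite changes. -/
def Hull (B : Set (ℕ → Bool)) : Set (ℕ → Bool) :=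
  {y | ∃ x ∈ B, ∃ N, ∀ n ≥ N, x n = true → y n = true}

/-- the set of (characteristic functions of) members of a filter -/
def Members (F : Filter ℕ) : Set (ℕ → Bool) := {x | {n | x n = true} ∈ F}

/-- The set of all `y` that are Turing equivalent to some `y'` such that some element of `B` is
almost contained in `Phase y'`. -/
def Clocked (B : Set (ℕ → Bool)) : Set (ℕ → Bool) :=
  {y | ∃ y', TLE y y' ∧ TLE y' y ∧ ∃ x ∈ B, AlmostIn x (Phase y')}

end Pool.Agent.Helper56TB
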