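import Mathlib
import Pool.Agent.Helper56_TB.Defs
import Pool.Agent.Helper25_TD.Star

/-!
# Reindexing recursively enumerable sets of strings, with Ackermann bounds
-/

set_option autoImplicit false

namespace Pool.Agent.Helper56TB

open Pool.Agent.Helper25TD Nat.Partrec

/-- the test used in the search -/
def test (Q : List Bool → ℕ → Option (List Bool)) (p : ℕ × List Bool) (t : ℕ) : Bool :=
  decide (t.unpair.1 ≤ p.2.length) && ((Q p.2 t.unpair.1).bind fun l =>
    Code.evaln t.unpair.2 (Denumerable.ofNat Code p.1) (Encodable.encode l)).isSome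

theorem primrec_test {Q : List Bool → ℕ → Option (List Bool)} (hQ : Primrec₂ Q) :
    Primrec₂ (test Q) := by
  have h1 : Primrec fun a : (ℕ × List Bool) × ℕ => a.2.unpair.1 :=
    Primrec.fst.comp (Primrec.unpair.comp Primrec.snd)
  have h2 : Primrec fun a : (ℕ × List Bool) × ℕ => a.2.unpair.2 :=
    Primrec.snd.comp (Primrec.unpair.comp Primrec.snd)
  have h3 : Primrec fun a : (ℕ × List Bool) × ℕ => a.1.2 := Primrec.snd.comp Primrec.fst
  have h4 : Primrec fun a : (ℕ × List Bool) × ℕ => a.1.1 := Primrec.fst.comp Primrec.fst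
  have h5 : PrimrecPred fun a : (ℕ × List Bool) × ℕ => a.2.unpair.1 ≤ a.1.2.length :=
    Primrec.nat_le.comp h1 (Primrec.list_length.comp h3)
  have h6 : Primrec fun a : (ℕ × List Bool) × ℕ => Q a.1.2 a.2.unpair.1 := hQ.comp h3 h1
  have h7 : Primrec₂ fun (a : (ℕ × List Bool) × ℕ) (l : List Bool) =>
      Code.evaln a.2.unpair.2 (Denumerable.ofNat Code a.1.1) (Encodable.encode l) := by
    have h8 : Primrec fun b : ((ℕ × List Bool) × ℕ) × List Bool =>
        (((b.1.2.unpair.2, Denumerable.ofNat Code b.1.1.1), Encodable.encode b.2) :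
          (ℕ × Code) × ℕ) :=
      Primrec.pair (Primrec.pair (h2.comp Primrec.fst)
        ((Primrec.ofNat Code).comp (h4.comp Primrec.fst))) (Primrec.encode.comp Primrec.snd)
    exact Code.primrec_evaln.comp h8
  exact Primrec.and.comp h5.decide (Primrec.option_isSome.comp (Primrec.option_bind h6 h7))

/-- the search -/
def srch (Q : List Bool → ℕ → Option (List Bool)) (p : ℕ × List Bool) : Part ℕ :=
  Nat.rfind (test Q p : ℕ →. Bool)

theorem srch_dom (Q : List Bool → ℕ → Option (List Bool)) (p : ℕ × List Bool) :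
    (srch Q p).Dom ↔ ∃ t, test Q p t = true := by
  unfold srch
  rw [Nat.rfind_dom]
  constructor
  · rintro ⟨t, ht, -⟩
    exact ⟨t, by simpa using ht⟩
  · rintro ⟨t, ht⟩
    exact ⟨t, by simp [ht], fun _ => trivial⟩

/-- Reindexing. -/
theorem exists_reindex (Q : List Bool → ℕ → Option (List Bool)) (hQ : Primrec₂ Q) :
    ∃ c, ∀ e, ∃ e' ≤ ack c e, ∀ l, l ∈ RE e' ↔
      ∃ j ≤ l.length, ∃ l' ∈ Q l j, l' ∈ RE e := by
  have hp : Partrec (srch Q) := Partrec.rfind (primrec_test hQ).to_comp.partrec₂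
  obtain ⟨c0, hc0⟩ := Code.exists_code.1 hp
  have hs : Primrec fun e : ℕ => Encodable.encode (Code.curry c0 e) :=
    Primrec.encode.comp (Code.primrec₂_curry.comp (Primrec.const c0) Primrec.id)
  obtain ⟨c, hc⟩ := exists_lt_ack_of_nat_primrec (Primrec.nat_iff.1 hs)
  refine ⟨c, fun e => ⟨Encodable.encode (Code.curry c0 e), (hc e).le, fun l => ?_⟩⟩
  have h1 : ((Denumerable.ofNat Code (Encodable.encode (Code.curry c0 e))).eval
      (Encodable.encode l)) =
      (srch Q (e, l)).map Encodable.encode := by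
    rw [Denumerable.ofNat_encode, Code.eval_curry, hc0]
    have h2 : Nat.pair e (Encodable.encode l) = Encodable.encode (e, l) := rfl
    rw [h2]
    simp only [Encodable.encodek, Part.coe_some, Part.bind_some]
  change ((Denumerable.ofNat Code (Encodable.encode (Code.curry c0 e))).eval
      (Encodable.encode l)).Dom ↔ _
  rw [h1]
  change (srch Q (e, l)).Dom ↔ _
  rw [srch_dom]
  constructor
  · rintro ⟨t, ht'⟩
    unfold test at ht'
    rw [Bool.and_eq_true, decide_eq_true_eq] at ht'
    refine ⟨_, ht'.1, ?_⟩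
    have h2 := ht'.2
    rw [Option.isSome_iff_exists] at h2
    obtain ⟨v, hv⟩ := h2
    rw [Option.bind_eq_some_iff] at hv
    obtain ⟨l', hl', hv⟩ := hv
    refine ⟨l', hl', ?_⟩
    exact Part.dom_iff_mem.2 ⟨v, Code.evaln_complete.2 ⟨_, hv⟩⟩
  · rintro ⟨j, hj, l', hl', h⟩
    obtain ⟨v, hv⟩ := Part.dom_iff_mem.1 h
    obtain ⟨k, hk⟩ := Code.evaln_complete.1 hv
    refine ⟨Nat.pair j k, ?_⟩
    unfold test
    rw [Bool.and_eq_true, decide_eq_true_eq, Nat.unpair_pair]
    refine ⟨hj, ?_⟩
    rw [Option.isSome_iff_exists]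
    exact ⟨v, Option.bind_eq_some_iff.2 ⟨l', hl', hk⟩⟩

theorem length_pre (x : ℕ → Bool) (n : ℕ) : (pre x n).length = n := by simp [pre]

theorem take_pre (x : ℕ → Bool) {j n : ℕ} (h : j ≤ n) : (pre x n).take j = pre x j := by
  unfold pre
  rw [← List.map_take, List.take_range, min_eq_left h]

theorem getElem?_pre (x : ℕ → Bool) {i n : ℕ} (h : i < n) : (pre x n)[i]? = some (x i) := by
  simp [pre, h]

theorem pre_congr {x y : ℕ → Bool} {n : ℕ} (h : ∀ i < n, x i = y i) : pre x n = pre y n := by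
  unfold pre
  refine List.map_congr_left fun i hi => h i (List.mem_range.1 hi)

theorem pre_inj {x y : ℕ → Bool} {n : ℕ} (h : pre x n = pre y n) : ∀ i < n, x i = y i := by
  intro i hi
  have h1 := getElem?_pre x hi
  rw [h, getElem?_pre y hi] at h1
  exact (Option.some.inj h1).symm

/-- some index whose set contains all strings -/
theorem exists_all : ∃ e, ∀ l, l ∈ RE e := by
  refine ⟨Encodable.encode Code.zero, fun l => ?_⟩
  change ((Denumerable.ofNat Code (Encodable.encode Code.zero)).eval (Encodable.encode l)).Dom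
  rw [Denumerable.ofNat_encode]
  exact trivial

end Pool.Agent.Helper56TB
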