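import Mathlib
import Pool.Agent.Helper56_TB.Sets

/-!
# Oracle computations as limits of primitive recursive functions of initial segments
-/

set_option autoImplicit false

namespace Pool.Agent.Helper56TB

open Pool.Agent.Helper25TD

/-- The partial function `f` is approximated by `G` along the initial segments of `y`. -/
def Approx (y : ℕ → Bool) (f : ℕ →. ℕ) (G : List Bool → ℕ → Option ℕ) : Prop :=
  (∀ n i v, G (pre y n) i = some v → v ∈ f i) ∧
  ∀ i v, v ∈ f i → ∃ N, ∀ n ≥ N, G (pre y n) i = some v

theorem exists_approx (y : ℕ → Bool) {f : ℕ →. ℕ} (h : Nat.RecursiveIn {chi y} f) :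
    ∃ G : List Bool → ℕ → Option ℕ, Primrec₂ G ∧ Approx y f G := by
  induction h with
  | zero =>
    refine ⟨fun _ _ => some 0, (Primrec.const _).to₂, fun n i v h => ?_, fun i v h => ⟨0, ?_⟩⟩
    · rw [Option.some_inj] at h
      subst h
      exact Part.mem_some 0
    · intro n _
      have h1 : v = 0 := Part.mem_unique h (Part.mem_some 0)
      rw [h1]
  | succ =>
    refine ⟨fun _ i => some (i + 1), (Primrec.option_some.comp
      (Primrec.succ.comp Primrec.snd)).to₂, fun n i v h => ?_, fun i v h => ⟨0, ?_⟩⟩
    · rw [Option.some_inj] at h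
      subst h
      exact Part.mem_some (i + 1)
    · intro n _
      have h1 : v = i + 1 := by simpa using h
      rw [h1]
  | left =>
    refine ⟨fun _ i => some i.unpair.1, (Primrec.option_some.comp
      (Primrec.fst.comp (Primrec.unpair.comp Primrec.snd))).to₂, fun n i v h => ?_,
      fun i v h => ⟨0, ?_⟩⟩
    · rw [Option.some_inj] at h
      subst h
      exact Part.mem_some _
    · intro n _
      have h1 : v = i.unpair.1 := by simpa using h
      rw [h1]
  | right =>
    refine ⟨fun _ i => some i.unpair.2, (Primrec.option_some.comp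
      (Primrec.snd.comp (Primrec.unpair.comp Primrec.snd))).to₂, fun n i v h => ?_,
      fun i v h => ⟨0, ?_⟩⟩
    · rw [Option.some_inj] at h
      subst h
      exact Part.mem_some _
    · intro n _
      have h1 : v = i.unpair.2 := by simpa using h
      rw [h1]
  | oracle g hg =>
    rw [Set.mem_singleton_iff] at hg
    subst hg
    refine ⟨fun l i => (l[i]?).map Bool.toNat, ?_, fun n i v h => ?_, fun i v h => ⟨i + 1, ?_⟩⟩
    · exact Primrec.option_map Primrec.list_getElem?
        ((Primrec.dom_bool Bool.toNat).comp Primrec.snd).to₂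
    · change ((pre y n)[i]?).map Bool.toNat = some v at h
      by_cases hi : i < n
      · rw [getElem?_pre y hi] at h
        simp only [Option.map_some, Option.some_inj] at h
        rw [← h]
        exact Part.mem_some _
      · have h1 : (pre y n)[i]? = none := by
          rw [List.getElem?_eq_none_iff, length_pre]
          omega
        rw [h1] at h
        simp at h
    · intro n hn
      change ((pre y n)[i]?).map Bool.toNat = some v
      rw [getElem?_pre y (show i < n by omega)]
      have h1 : v = (y i).toNat := by simpa [chi] using h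
      simp [h1]
  | pair _ _ ihf ihh =>
    obtain ⟨G1, hG1, h1, h1'⟩ := ihf
    obtain ⟨G2, hG2, h2, h2'⟩ := ihh
    refine ⟨fun l n => (G1 l n).bind fun a => (G2 l n).map fun b => Nat.pair a b, ?_,
      fun n i v h => ?_, fun i v h => ?_⟩
    · refine Primrec.option_bind hG1 ?_
      refine Primrec.option_map (hG2.comp (Primrec.fst.comp Primrec.fst)
        (Primrec.snd.comp Primrec.fst)) ?_
      exact Primrec₂.natPair.comp (Primrec.snd.comp Primrec.fst) Primrec.snd
    · rw [Option.bind_eq_some_iff] at h
      obtain ⟨a, ha, hb⟩ := h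
      rw [Option.map_eq_some_iff] at hb
      obtain ⟨b, hb, rfl⟩ := hb
      simp only [Seq.seq, Part.map_eq_map, Part.mem_bind_iff, Part.mem_map_iff]
      exact ⟨_, ⟨a, h1 _ _ _ ha, rfl⟩, b, h2 _ _ _ hb, rfl⟩
    · simp only [Seq.seq, Part.map_eq_map, Part.mem_bind_iff, Part.mem_map_iff] at h
      obtain ⟨_, ⟨a, ha, rfl⟩, b, hb, rfl⟩ := h
      obtain ⟨N1, hN1⟩ := h1' _ _ ha
      obtain ⟨N2, hN2⟩ := h2' _ _ hb
      refine ⟨max N1 N2, fun n hn => ?_⟩
      simp only
      rw [hN1 n ((le_max_left _ _).trans hn), hN2 n ((le_max_right _ _).trans hn)]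
      rfl
  | comp _ _ ihf ihh =>
    obtain ⟨G1, hG1, h1, h1'⟩ := ihf
    obtain ⟨G2, hG2, h2, h2'⟩ := ihh
    refine ⟨fun l n => (G2 l n).bind fun a => G1 l a, ?_, fun n i v h => ?_, fun i v h => ?_⟩
    · refine Primrec.option_bind hG2 ?_
      exact hG1.comp (Primrec.fst.comp Primrec.fst) Primrec.snd
    · rw [Option.bind_eq_some_iff] at h
      obtain ⟨a, ha, hb⟩ := h
      exact Part.mem_bind (h2 _ _ _ ha) (h1 _ _ _ hb)
    · obtain ⟨a, ha, hb⟩ := Part.mem_bind_iff.1 h
      obtain ⟨N1, hN1⟩ := h2' _ _ ha
      obtain ⟨N2, hN2⟩ := h1' _ _ hb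
      refine ⟨max N1 N2, fun n hn => ?_⟩
      simp only
      rw [hN1 n ((le_max_left _ _).trans hn)]
      exact hN2 n ((le_max_right _ _).trans hn)
  | @prec f h _ _ ihf ihh =>
    obtain ⟨G1, hG1, h1, h1'⟩ := ihf
    obtain ⟨G2, hG2, h2, h2'⟩ := ihh
    let R : List Bool → ℕ → ℕ → Option ℕ := fun l a n => Nat.rec (G1 l a)
      (fun y IH => IH.bind fun i => G2 l (Nat.pair a (Nat.pair y i))) n
    have hsound : ∀ n a m v, R (pre y n) a m = some v →
        v ∈ (Nat.rec (f a) (fun y IH => IH.bind fun i => h (Nat.pair a (Nat.pair y i))) m :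
          Part ℕ) := by
      intro n a m
      induction m with
      | zero => exact fun v hv => h1 _ _ _ hv
      | succ m ih =>
        intro v hv
        change (R (pre y n) a m).bind _ = some v at hv
        rw [Option.bind_eq_some_iff] at hv
        obtain ⟨i, hi, hv⟩ := hv
        simp only [Part.mem_bind_iff]
        exact ⟨i, ih i hi, h2 _ _ _ hv⟩
    have hcomp : ∀ a m v,
        v ∈ (Nat.rec (f a) (fun y IH => IH.bind fun i => h (Nat.pair a (Nat.pair y i))) m :
          Part ℕ) → ∃ N, ∀ n ≥ N, R (pre y n) a m = some v := by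
      intro a m
      induction m with
      | zero => exact fun v hv => h1' _ _ hv
      | succ m ih =>
        intro v hv
        simp only [Part.mem_bind_iff] at hv
        obtain ⟨i, hi, hv⟩ := hv
        obtain ⟨N1, hN1⟩ := ih i hi
        obtain ⟨N2, hN2⟩ := h2' _ _ hv
        refine ⟨max N1 N2, fun n hn => ?_⟩
        change (R (pre y n) a m).bind _ = some v
        rw [hN1 n ((le_max_left _ _).trans hn)]
        exact hN2 n ((le_max_right _ _).trans hn)
    refine ⟨fun l p => R l p.unpair.1 p.unpair.2, ?_, fun n i v hv => ?_, fun i v hv => ?_⟩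
    · have h3 : Primrec₂ fun (q : List Bool × ℕ) (n : ℕ) => R q.1 q.2 n := by
        refine Primrec.nat_rec (f := fun q : List Bool × ℕ => G1 q.1 q.2)
          (g := fun (q : List Bool × ℕ) (p : ℕ × Option ℕ) =>
            p.2.bind fun i => G2 q.1 (Nat.pair q.2 (Nat.pair p.1 i))) hG1 ?_
        refine Primrec.option_bind (Primrec.snd.comp Primrec.snd) ?_
        refine hG2.comp (Primrec.fst.comp (Primrec.fst.comp Primrec.fst)) ?_
        refine Primrec₂.natPair.comp (Primrec.snd.comp (Primrec.fst.comp Primrec.fst)) ?_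
        exact Primrec₂.natPair.comp (Primrec.fst.comp (Primrec.snd.comp Primrec.fst)) Primrec.snd
      have h4 : Primrec fun a : List Bool × ℕ => (a.1, a.2.unpair.1) :=
        Primrec.pair Primrec.fst (Primrec.fst.comp (Primrec.unpair.comp Primrec.snd))
      exact h3.comp h4 (Primrec.snd.comp (Primrec.unpair.comp Primrec.snd))
    · exact hsound n _ _ v hv
    · exact hcomp _ _ v hv
  | @rfind f _ ihf =>
    obtain ⟨G1, hG1, h1, h1'⟩ := ihf
    let s : List Bool → ℕ → ℕ := fun l a => (List.range l.length).findIdx
      fun n => decide (G1 l (Nat.pair a n) = none ∨ G1 l (Nat.pair a n) = some 0)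
    have hs : Primrec₂ s := by
      refine Primrec.list_findIdx (Primrec.list_range.comp (Primrec.list_length.comp
        Primrec.fst)) ?_
      have h2 : Primrec fun q : (List Bool × ℕ) × ℕ => G1 q.1.1 (Nat.pair q.1.2 q.2) :=
        hG1.comp (Primrec.fst.comp Primrec.fst)
          (Primrec₂.natPair.comp (Primrec.snd.comp Primrec.fst) Primrec.snd)
      exact ((Primrec.eq.comp h2 (Primrec.const none)).or
        (Primrec.eq.comp h2 (Primrec.const (some 0)))).decide
    have hmem : ∀ a v, v ∈ (Nat.rfind fun n => (fun m => decide (m = 0)) <$> f (Nat.pair a n)) ↔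
        (0 ∈ f (Nat.pair a v) ∧ ∀ n < v, ∃ m, m ≠ 0 ∧ m ∈ f (Nat.pair a n)) := by
      intro a v
      refine Nat.mem_rfind.trans ?_
      have key : ∀ (j : ℕ) (b : Bool),
          b ∈ (fun n => (f (Nat.pair a n)).map fun m => decide (m = 0)) j ↔
            ∃ m, m ∈ f (Nat.pair a j) ∧ decide (m = 0) = b := fun j b => Part.mem_map_iff _
      refine (and_congr (key v true) (forall_congr' fun j => forall_congr' fun _ =>
        key j false)).trans ?_
      simp only [decide_eq_true_eq, decide_eq_false_iff_not]
      constructor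
      · rintro ⟨⟨m, hm, rfl⟩, h2⟩
        exact ⟨hm, fun n hn => by
          obtain ⟨m, hm, hm'⟩ := h2 n hn
          exact ⟨m, hm', hm⟩⟩
      · rintro ⟨h2, h3⟩
        exact ⟨⟨0, h2, rfl⟩, fun n hn => by
          obtain ⟨m, hm, hm'⟩ := h3 n hn
          exact ⟨m, hm', hm⟩⟩
    refine ⟨fun l a => if G1 l (Nat.pair a (s l a)) = some 0 then some (s l a) else none, ?_,
      fun n a v hv => ?_, fun a v hv => ?_⟩
    · have h2 : Primrec fun q : List Bool × ℕ => G1 q.1 (Nat.pair q.2 (s q.1 q.2)) :=
        hG1.comp Primrec.fst (Primrec₂.natPair.comp Primrec.snd hs)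
      exact Primrec.ite (Primrec.eq.comp h2 (Primrec.const (some 0)))
        (Primrec.option_some.comp hs) (Primrec.const none)
    · rw [hmem]
      simp only at hv
      split_ifs at hv with h2
      rw [Option.some_inj] at hv
      subst hv
      refine ⟨h1 _ _ _ h2, fun i hi => ?_⟩
      have h3 := List.not_of_lt_findIdx hi
      rw [List.getElem_range] at h3
      have h3' : ¬ (G1 (pre y n) (Nat.pair a i) = none ∨ G1 (pre y n) (Nat.pair a i) = some 0) :=
        fun h => by simp [h] at h3
      rw [not_or] at h3'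
      obtain ⟨h3, h4⟩ := h3'
      cases h5 : G1 (pre y n) (Nat.pair a i) with
      | none => exact absurd h5 h3
      | some m =>
        refine ⟨m, ?_, h1 _ _ _ h5⟩
        rintro rfl
        exact h4 h5
    · rw [hmem] at hv
      obtain ⟨hv0, hv⟩ := hv
      have h2 : ∀ k ≤ v, ∃ N, ∀ n ≥ N, ∀ i < k, ∃ m, m ≠ 0 ∧
          G1 (pre y n) (Nat.pair a i) = some m := by
        intro k
        induction k with
        | zero => exact fun _ => ⟨0, fun n _ i hi => absurd hi (Nat.not_lt_zero i)⟩
        | succ k ih =>
          intro hk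
          obtain ⟨N1, hN1⟩ := ih (by omega)
          obtain ⟨m, hm, hm'⟩ := hv k (by omega)
          obtain ⟨N2, hN2⟩ := h1' _ _ hm'
          refine ⟨max N1 N2, fun n hn i hi => ?_⟩
          rcases Nat.lt_succ_iff_lt_or_eq.1 hi with hi | rfl
          · exact hN1 n ((le_max_left _ _).trans hn) i hi
          · exact ⟨m, hm, hN2 n ((le_max_right _ _).trans hn)⟩
      obtain ⟨N1, hN1⟩ := h2 v le_rfl
      obtain ⟨N2, hN2⟩ := h1' _ _ hv0
      refine ⟨max (max N1 N2) (v + 1), fun n hn => ?_⟩
      have h3 := hN1 n (by omega)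
      have h4 := hN2 n (by omega)
      have h5 : s (pre y n) a = v := by
        have hlt : v < (List.range (pre y n).length).length := by
          rw [List.length_range, length_pre]
          omega
        refine (List.findIdx_eq hlt).2 ⟨?_, fun j hj => ?_⟩
        · simp [h4]
        · simp only [List.getElem_range]
          obtain ⟨m, hm, hm'⟩ := h3 j hj
          rw [hm']
          simp [hm]
      simp only
      rw [h5, if_pos h4]

/-- the string of the first `j` values -/
def word (G : List Bool → ℕ → Option ℕ) (l : List Bool) (j : ℕ) : Option (List Bool) :=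
  Nat.rec (some []) (fun i w => w.bind fun w => (G l i).map fun v => w ++ [decide (v = 1)]) j

theorem primrec_word {G : List Bool → ℕ → Option ℕ} (hG : Primrec₂ G) : Primrec₂ (word G) := by
  refine Primrec.nat_rec (f := fun _ : List Bool => some ([] : List Bool))
    (g := fun (l : List Bool) (p : ℕ × Option (List Bool)) =>
      p.2.bind fun w => (G l p.1).map fun v => w ++ [decide (v = 1)])
    (Primrec.const (some [])) ?_
  refine Primrec.option_bind (Primrec.snd.comp Primrec.snd) ?_
  refine Primrec.option_map (hG.comp (Primrec.fst.comp Primrec.fst)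
    (Primrec.fst.comp (Primrec.snd.comp Primrec.fst))) ?_
  refine Primrec.list_append.comp (Primrec.snd.comp Primrec.fst) ?_
  refine Primrec.list_cons.comp ?_ (Primrec.const [])
  exact (Primrec.eq.comp Primrec.snd (Primrec.const 1)).decide

theorem word_sound {x y : ℕ → Bool} {G : List Bool → ℕ → Option ℕ} (h : Approx y (chi x) G)
    (n j : ℕ) {w : List Bool} (hw : word G (pre y n) j = some w) : w = pre x j := by
  induction j generalizing w with
  | zero =>
    change some [] = some w at hw
    rw [Option.some_inj] at hw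
    rw [← hw]
    rfl
  | succ j ih =>
    change (word G (pre y n) j).bind _ = some w at hw
    rw [Option.bind_eq_some_iff] at hw
    obtain ⟨u, hu, hw⟩ := hw
    rw [Option.map_eq_some_iff] at hw
    obtain ⟨v, hv, rfl⟩ := hw
    have h1 := h.1 _ _ _ hv
    have h2 : v = (x j).toNat := by simpa [chi] using h1
    rw [ih hu, pre_succ, h2]
    cases x j <;> simp

theorem word_complete {x y : ℕ → Bool} {G : List Bool → ℕ → Option ℕ} (h : Approx y (chi x) G)
    (j : ℕ) : ∃ N, ∀ n ≥ N, word G (pre y n) j = some (pre x j) := by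
  induction j with
  | zero => exact ⟨0, fun n _ => rfl⟩
  | succ j ih =>
    obtain ⟨N1, hN1⟩ := ih
    obtain ⟨N2, hN2⟩ := h.2 j (x j).toNat (Part.mem_some _)
    refine ⟨max N1 N2, fun n hn => ?_⟩
    change (word G (pre y n) j).bind _ = _
    rw [hN1 n ((le_max_left _ _).trans hn), Option.bind_some,
      hN2 n ((le_max_right _ _).trans hn), pre_succ]
    cases x j <;> simp

end Pool.Agent.Helper56TB
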