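import Mathlib
import Pool.Agent.Helper56_TB.Prefix

/-!
# The clock
-/

set_option autoImplicit false

namespace Pool.Agent.Helper56TB

open Pool.Agent.Helper25TD

/-- `n` is the least length of an initial segment of `x` in the `e`-th set -/
def First (e : ℕ) (x : ℕ → Bool) (n : ℕ) : Prop := Meets e x n ∧ ∀ l < n, ¬ Meets e x l

theorem exists_first {e : ℕ} {x : ℕ → Bool} (h : ∃ n, Meets e x n) : ∃ n, First e x n := by
  classical
  exact ⟨Nat.find h, Nat.find_spec h, fun l hl => Nat.find_min h hl⟩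

theorem First.unique {e : ℕ} {x : ℕ → Bool} {n m : ℕ} (hn : First e x n) (hm : First e x m) :
    n = m := by
  rcases lt_trichotomy n m with h | h | h
  · exact absurd hn.1 (hm.2 n h)
  · exact h
  · exact absurd hm.1 (hn.2 m h)

theorem Settled.mono {x : ℕ → Bool} {m m' n n' : ℕ} (h : Settled x m n) (hm : m' ≤ m)
    (hn : n ≤ n') : Settled x m' n' := fun e he hl => by
  obtain ⟨l, hl, hl'⟩ := h e (he.trans hm) hl
  exact ⟨l, hl.trans hn, hl'⟩

theorem not_settled_of_first {x : ℕ → Bool} {m n e l : ℕ} (he : e ≤ m) (h : First e x l)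
    (hn : n < l) : ¬ Settled x m n := fun hs => by
  obtain ⟨l', hl', h'⟩ := hs e he ⟨l, h.1⟩
  exact h.2 l' (hl'.trans_lt hn) h'

/-- comparison of the clocks of `x` and `y` when `x` is computable from `y` -/
theorem shift_of_le {x y : ℕ → Bool} (h : TLE x y) :
    ∃ c, ∀ m n, Settled y (ack c m) n → Settled x m n := by
  obtain ⟨G, hG, hG'⟩ := exists_approx y (f := chi x) (RecursiveIn.iff_nat.1 h)
  obtain ⟨c, hc⟩ := exists_reindex (word G) (primrec_word hG)
  refine ⟨c, fun m n hs e he hl => ?_⟩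
  obtain ⟨l, hl⟩ := hl
  obtain ⟨e', he', H⟩ := hc e
  obtain ⟨N, hN⟩ := word_complete hG' l
  obtain ⟨l', hl', h'⟩ := hs e' (he'.trans (ack_mono_right c he)) ⟨max N l, by
    refine (H _).2 ⟨l, ?_, pre x l, ?_, hl⟩
    · rw [length_pre]
      exact le_max_right _ _
    · exact hN _ (le_max_left _ _)⟩
  obtain ⟨j, hj, w, hw, hw'⟩ := (H _).1 h'
  rw [length_pre] at hj
  refine ⟨j, hj.trans hl', ?_⟩
  rw [word_sound hG' _ _ hw] at hw'
  exact hw'

/-! ### markers -/

/-- the test for markers -/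
def Mark (l : List Bool) (j : ℕ) : Prop :=
  ∃ p < l.length, j ≤ p ∧ p % 2 = 1 ∧ l[p]? = some true

theorem primrec_mark : PrimrecRel Mark := by
  have h1 : PrimrecRel fun (p : ℕ) (q : List Bool × ℕ) =>
      q.2 ≤ p ∧ p % 2 = 1 ∧ q.1[p]? = some true := by
    refine (Primrec.nat_le.comp (Primrec.snd.comp Primrec.snd) Primrec.fst).and ?_
    refine (Primrec.eq.comp (Primrec.nat_mod.comp Primrec.fst (Primrec.const 2))
      (Primrec.const 1)).and ?_
    exact Primrec.eq.comp (Primrec.list_getElem?.comp (Primrec.fst.comp Primrec.snd) Primrec.fst)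
      (Primrec.const (some true))
  have h2 : PrimrecPred fun q : List Bool × ℕ =>
      ∃ p < q.1.length, q.2 ≤ p ∧ p % 2 = 1 ∧ q.1[p]? = some true := by
    have h3 := PrimrecRel.comp (f := fun q : List Bool × ℕ => List.range q.1.length)
      (g := fun q : List Bool × ℕ => q) h1.exists_mem_list
      (Primrec.list_range.comp (Primrec.list_length.comp Primrec.fst)) Primrec.id
    exact h3.of_eq fun q => by simp
  exact h2

theorem exists_marker : ∃ c, ∀ e, ∃ e' ≤ ack c e, ∀ (y : ℕ → Bool) (n : ℕ),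
    Meets e' y n ↔ ∃ j ≤ n, (∃ p < n, j ≤ p ∧ p % 2 = 1 ∧ y p = true) ∧ Meets e y j := by
  classical
  have hQ : Primrec₂ fun (l : List Bool) (j : ℕ) => if Mark l j then some (l.take j) else none :=
    Primrec.ite primrec_mark (Primrec.option_some.comp (Primrec.list_take.comp Primrec.snd
      Primrec.fst)) (Primrec.const none)
  obtain ⟨c, hc⟩ := exists_reindex _ hQ
  refine ⟨c, fun e => ?_⟩
  obtain ⟨e', he', H⟩ := hc e
  refine ⟨e', he', fun y n => (H (pre y n)).trans ?_⟩
  rw [length_pre]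
  refine exists_congr fun j => and_congr_right fun hj => ?_
  have hmark : Mark (pre y n) j ↔ ∃ p < n, j ≤ p ∧ p % 2 = 1 ∧ y p = true := by
    unfold Mark
    rw [length_pre]
    refine exists_congr fun p => and_congr_right fun hp => ?_
    rw [getElem?_pre y hp, Option.some_inj]
  rw [← hmark]
  constructor
  · rintro ⟨l', hl', h⟩
    by_cases hm : Mark (pre y n) j
    · simp only [hm, if_true, Option.mem_def, Option.some_inj] at hl'
      rw [take_pre y hj] at hl'
      exact ⟨hm, by rw [← hl'] at h; exact h⟩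
    · simp only [hm, if_false, Option.mem_def] at hl'
      exact absurd hl' (by simp)
  · rintro ⟨hm, h⟩
    refine ⟨pre y j, ?_, h⟩
    simp only [hm, if_true, Option.mem_def, Option.some_inj]
    exact take_pre y hj

theorem exists_first_marker : ∃ c, ∀ e, ∃ e' ≤ ack c e, ∀ (y : ℕ → Bool) (n p : ℕ),
    First e y n → n ≤ p → p % 2 = 1 → y p = true →
    (∀ q < p, n ≤ q → q % 2 = 1 → y q = false) → First e' y (p + 1) := by
  obtain ⟨c, hc⟩ := exists_marker
  refine ⟨c, fun e => ?_⟩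
  obtain ⟨e', he', H⟩ := hc e
  refine ⟨e', he', fun y n p hn hnp hp hyp hq => ⟨?_, fun l hl => ?_⟩⟩
  · exact (H y (p + 1)).2 ⟨n, by omega, ⟨p, by omega, hnp, hp, hyp⟩, hn.1⟩
  · rw [H]
    rintro ⟨j, hj, ⟨q, hql, hjq, hq2, hyq⟩, hm⟩
    have hnj : n ≤ j := by
      by_contra hlt
      exact hn.2 j (by omega) hm
    rw [hq q (by omega) (by omega) hq2] at hyq
    exact absurd hyq (by simp)

/-- functions computable from `y` are dominated by the clock of `y` -/
theorem exists_dominate {y : ℕ → Bool} {h : ℕ → ℕ} (hh : TR y h) :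
    ∃ c, ∀ e, ∃ e' ≤ ack c e, (∀ n, Meets e' y n → ∃ j ≤ n, h j ≤ n ∧ Meets e y j) ∧
      ((∃ n, Meets e y n) → ∃ n, Meets e' y n) := by
  obtain ⟨G, hG, hG'⟩ := exists_approx y hh
  have hQ : Primrec₂ fun (l : List Bool) (j : ℕ) =>
      (G l j).bind fun v => if v ≤ l.length then some (l.take j) else none := by
    refine Primrec.option_bind hG ?_
    refine Primrec.ite ?_ ?_ (Primrec.const none)
    · exact Primrec.nat_le.comp Primrec.snd (Primrec.list_length.comp
        (Primrec.fst.comp Primrec.fst))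
    · exact Primrec.option_some.comp (Primrec.list_take.comp (Primrec.snd.comp Primrec.fst)
        (Primrec.fst.comp Primrec.fst))
  obtain ⟨c, hc⟩ := exists_reindex _ hQ
  refine ⟨c, fun e => ?_⟩
  obtain ⟨e', he', H⟩ := hc e
  refine ⟨e', he', fun n hn => ?_, fun hn => ?_⟩
  · obtain ⟨j, hj, l', hl', hl⟩ := (H (pre y n)).1 hn
    rw [length_pre] at hj
    simp only [Option.mem_def] at hl'
    rw [Option.bind_eq_some_iff] at hl'
    obtain ⟨v, hv, hl'⟩ := hl'
    have h1 : v = h j := by simpa using hG'.1 _ _ _ hv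
    split_ifs at hl' with h2
    rw [length_pre, h1] at h2
    refine ⟨j, hj, h2, ?_⟩
    rw [Option.some_inj, take_pre y hj] at hl'
    rw [← hl'] at hl
    exact hl
  · obtain ⟨j, hj⟩ := hn
    obtain ⟨N, hN⟩ := hG'.2 j (h j) (Part.mem_some _)
    refine ⟨max N (max (h j) j), (H _).2 ⟨j, ?_, pre y j, ?_, hj⟩⟩
    · rw [length_pre]
      omega
    · simp only [Option.mem_def]
      rw [hN _ (le_max_left _ _), Option.bind_some, if_pos, take_pre y (by omega)]
      rw [length_pre]
      omega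

/-! ### growth -/

theorem growth {c r : ℕ} (h : c ≤ r) : ack c (ack r r) ≤ ack (r + 1) (r + 1) := by
  rw [ack_succ_succ]
  refine ack_le_ack h ?_
  exact ack_le_ack (Nat.le_succ r) le_rfl

theorem growth' {c d r : ℕ} (hc : c + 2 ≤ r) (hd : d + 2 ≤ r) :
    ack c (ack d (ack r r)) ≤ ack (r + 1) (r + 1) := by
  refine (ack_ack_lt_ack_max_add_two c d (ack r r)).le.trans (growth ?_)
  omega

theorem sc_mono {r s : ℕ} (h : r ≤ s) : ack r r ≤ ack s s := ack_le_ack h h

theorem gap {x y : ℕ → Bool} (hxy : TLE x y) (hyx : TLE y x) (c : ℕ) :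
    ∃ K, ∀ r ≥ K, ∀ n, (Settled y (ack (r + 1) (r + 1)) n → Settled x (ack r r) n) ∧
      (Settled x (ack (r + 1) (r + 1)) n → Settled y (ack c (ack r r)) n) := by
  obtain ⟨c1, h1⟩ := shift_of_le hxy
  obtain ⟨c2, h2⟩ := shift_of_le hyx
  refine ⟨c + c1 + c2 + 2, fun r hr n => ⟨fun h => ?_, fun h => ?_⟩⟩
  · exact h1 _ _ (h.mono (growth (by omega)) le_rfl)
  · exact h2 _ _ (h.mono (growth' (by omega) (by omega)) le_rfl)

/-- On a gap of the first kind, every real Turing equivalent to `y` is in phase. -/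
theorem mem_phase {x y : ℕ → Bool} (hxy : TLE x y) (hyx : TLE y x) (c : ℕ) :
    ∃ K, ∀ k ≥ K, ∀ n, Settled y (ack (4 * k + 1) (4 * k + 1)) n →
      ¬ Settled y (ack c (ack (4 * k + 1) (4 * k + 1))) n → n ∈ Phase x := by
  obtain ⟨K, hK⟩ := gap hxy hyx c
  refine ⟨K, fun k hk n h1 h2 => ⟨k, ?_, fun h => h2 ?_⟩⟩
  · exact (hK (4 * k) (by omega) n).1 h1
  · exact (hK (4 * k + 1) (by omega) n).2 h

/-- On a gap of the second kind, every real Turing equivalent to `y` is out of phase. -/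
theorem not_mem_phase {x y : ℕ → Bool} (hxy : TLE x y) (hyx : TLE y x) (c : ℕ) :
    ∃ K, ∀ k ≥ K, ∀ n, Settled y (ack (4 * k + 3) (4 * k + 3)) n →
      ¬ Settled y (ack c (ack (4 * k + 3) (4 * k + 3))) n → n ∉ Phase x := by
  obtain ⟨K, hK⟩ := gap hxy hyx c
  refine ⟨K, fun k hk n h1 h2 => ?_⟩
  rintro ⟨k', h3, h4⟩
  have h5 := (hK (4 * k + 2) (by omega) n).1 h1
  have h6 : ¬ Settled x (ack (4 * k + 4) (4 * k + 4)) n := fun h =>
    h2 ((hK (4 * k + 3) (by omega) n).2 h)
  rcases Nat.lt_or_ge k k' with h | h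
  · exact h6 (h3.mono (sc_mono (by omega)) le_rfl)
  · exact h4 (h5.mono (sc_mono (by omega)) le_rfl)

end Pool.Agent.Helper56TB
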