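import Mathlib
import Pool.Agent.Helper56_TB.Clock

/-!
# Reals whose clock stands still on prescribed gaps
-/

set_option autoImplicit false

namespace Pool.Agent.Helper56TB

open Pool.Agent.Helper25TD

/-- the even part of `y` is `z` -/
def Comp (z y : ℕ → Bool) : Prop := ∀ i, y (2 * i) = z i

/-- deleting all odd elements that are at least `n` -/
def cut (y : ℕ → Bool) (n : ℕ) : ℕ → Bool := fun i => if i < n ∨ i % 2 = 0 then y i else false

theorem cut_of_lt {y : ℕ → Bool} {n i : ℕ} (h : i < n) : cut y n i = y i := if_pos (Or.inl h)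

theorem cut_of_odd {y : ℕ → Bool} {n i : ℕ} (h : n ≤ i) (hi : i % 2 = 1) : cut y n i = false :=
  if_neg (by omega)

theorem comp_cut {z y : ℕ → Bool} (h : Comp z y) (n : ℕ) : Comp z (cut y n) := fun i => by
  rw [← h i]
  exact if_pos (Or.inr (by omega))

theorem cut_cut (y : ℕ → Bool) (n : ℕ) : cut (cut y n) n = cut y n := by
  funext i
  unfold cut
  split_ifs <;> rfl

theorem Meets.congr {e : ℕ} {x y : ℕ → Bool} {n : ℕ} (h : Meets e x n)
    (H : ∀ i < n, y i = x i) : Meets e y n := by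
  unfold Meets at h ⊢
  rw [pre_congr H]
  exact h

theorem First.congr {e : ℕ} {x y : ℕ → Bool} {n : ℕ} (h : First e x n)
    (H : ∀ i < n, y i = x i) : First e y n :=
  ⟨h.1.congr H, fun l hl hm => h.2 l hl (hm.congr fun i hi => (H i (hi.trans hl)).symm)⟩

/-- the set with index `e` is decided by the first `n` values of `y` -/
def Dec (z : ℕ → Bool) (e : ℕ) (y : ℕ → Bool) (n : ℕ) : Prop :=
  (∃ l ≤ n, Meets e y l) ∨ ∀ y1, Comp z y1 → (∀ i < n, y1 i = y i) → ∀ l, ¬ Meets e y1 l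

theorem Dec.mono {z : ℕ → Bool} {e : ℕ} {y y' : ℕ → Bool} {n n' : ℕ} (h : Dec z e y n)
    (hn : n ≤ n') (H : ∀ i < n, y' i = y i) : Dec z e y' n' := by
  rcases h with ⟨l, hl, h⟩ | h
  · exact Or.inl ⟨l, hl.trans hn, h.congr fun i hi => H i (hi.trans_le hl)⟩
  · exact Or.inr fun y1 h1 h2 => h y1 h1 fun i hi => (h2 i (hi.trans_le hn)).trans (H i hi)

/-- the result of treating one index -/
theorem step (z : ℕ → Bool) (e : ℕ) {y : ℕ → Bool} (hy : Comp z y) (p : ℕ) :
    ∃ n ≥ p, ∃ y', Comp z y' ∧ (∀ i < p, y' i = y i) ∧ cut y' n = y' ∧ Dec z e y' n ∧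
      (n = p ∨ First e y' n) := by
  by_cases h1 : ∃ l ≤ p, Meets e y l
  · refine ⟨p, le_rfl, cut y p, comp_cut hy p, fun i hi => cut_of_lt hi, cut_cut y p, ?_,
      Or.inl rfl⟩
    obtain ⟨l, hl, h⟩ := h1
    exact Or.inl ⟨l, hl, h.congr fun i hi => cut_of_lt (hi.trans_le hl)⟩
  by_cases h2 : ∃ y1, Comp z y1 ∧ (∀ i < p, y1 i = y i) ∧ ∃ l, Meets e y1 l
  · obtain ⟨y1, hy1, hag, hl⟩ := h2
    obtain ⟨n, hn⟩ := exists_first hl
    have hpn : p ≤ n := by
      by_contra hlt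
      push Not at hlt
      exact h1 ⟨n, hlt.le, hn.1.congr fun i hi => (hag i (hi.trans hlt)).symm⟩
    have h3 : First e (cut y1 n) n := hn.congr fun i hi => cut_of_lt hi
    exact ⟨n, hpn, cut y1 n, comp_cut hy1 n, fun i hi =>
      (cut_of_lt (hi.trans_le hpn)).trans (hag i hi), cut_cut y1 n, Or.inl ⟨n, le_rfl, h3.1⟩,
      Or.inr h3⟩
  · refine ⟨p, le_rfl, cut y p, comp_cut hy p, fun i hi => cut_of_lt hi, cut_cut y p, ?_,
      Or.inl rfl⟩
    refine Or.inr fun y1 hy1 hag l hl => h2 ⟨y1, hy1, fun i hi => ?_, l, hl⟩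
    rw [hag i hi, cut_of_lt hi]

/-- the property of the results of the treatment of all indices at most `L` -/
def Win (z : ℕ → Bool) (L p : ℕ) (y : ℕ → Bool) (n : ℕ) (y' : ℕ → Bool) : Prop :=
  p ≤ n ∧ Comp z y' ∧ (∀ i < p, y' i = y i) ∧ cut y' n = y' ∧ (∀ e ≤ L, Dec z e y' n) ∧
    (n = p ∨ ∃ e ≤ L, First e y' n)

theorem exists_win (z : ℕ → Bool) (L : ℕ) {y : ℕ → Bool} (hy : Comp z y) (p : ℕ) :
    ∃ n y', Win z L p y n y' := by
  induction L with
  | zero =>
    obtain ⟨n, hn, y', h1, h2, h3, h4, h5⟩ := step z 0 hy p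
    refine ⟨n, y', hn, h1, h2, h3, fun e he => ?_, h5.imp id fun h => ⟨0, le_rfl, h⟩⟩
    rw [Nat.le_zero.1 he]
    exact h4
  | succ L ih =>
    obtain ⟨n1, y1, hn1, h1, h2, h3, h4, h5⟩ := ih
    obtain ⟨n, hn, y', h6, h7, h8, h9, h10⟩ := step z (L + 1) h1 n1
    refine ⟨n, y', hn1.trans hn, h6, fun i hi => (h7 i (hi.trans_le hn1)).trans (h2 i hi), h8,
      fun e he => ?_, ?_⟩
    · rcases Nat.lt_or_ge L e with h | h
      · have : e = L + 1 := by omega
        rw [this]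
        exact h9
      · exact (h4 e h).mono hn h7
    · rcases h10 with rfl | h10
      · rcases h5 with h5 | ⟨e, he, h5⟩
        · exact Or.inl h5
        · exact Or.inr ⟨e, he.trans (Nat.le_succ L), h5.congr h7⟩
      · exact Or.inr ⟨L + 1, le_rfl, h10⟩

theorem Win.congr {z : ℕ → Bool} {L p : ℕ} {y y1 : ℕ → Bool} {n : ℕ} {y' : ℕ → Bool}
    (h : Win z L p y n y') (H : ∀ i < p, y i = y1 i) : Win z L p y1 n y' := by
  obtain ⟨h1, h2, h3, h4, h5, h6⟩ := h
  exact ⟨h1, h2, fun i hi => (h3 i hi).trans (H i hi), h4, h5, h6⟩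

theorem exists_bound (z : ℕ → Bool) (L p : ℕ) :
    ∃ B, ∀ y, Comp z y → ∃ n ≤ B, ∃ y', Win z L p y n y' := by
  have h1 : ∀ l : List Bool, ∃ b, ∀ y, Comp z y → pre y p = l → ∃ n ≤ b, ∃ y',
      Win z L p y n y' := by
    intro l
    by_cases h : ∃ y, Comp z y ∧ pre y p = l
    · obtain ⟨y, hy, hl⟩ := h
      obtain ⟨n, y', hw⟩ := exists_win z L hy p
      refine ⟨n, fun y1 hy1 hl1 => ⟨n, le_rfl, y', hw.congr ?_⟩⟩
      exact pre_inj (hl.trans hl1.symm)
    · exact ⟨0, fun y hy hl => absurd ⟨y, hy, hl⟩ h⟩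
  choose b hb using h1
  have hfin : {l : List Bool | l.length = p}.Finite := List.finite_length_eq Bool p
  obtain ⟨B, hB⟩ := (hfin.image b).bddAbove
  refine ⟨B, fun y hy => ?_⟩
  obtain ⟨n, hn, y', hw⟩ := hb (pre y p) y hy rfl
  exact ⟨n, hn.trans (hB ⟨pre y p, length_pre y p, rfl⟩), y', hw⟩

theorem exists_bound' (z : ℕ → Bool) (c p : ℕ) :
    ∃ B, B % 2 = 1 ∧ p ≤ B ∧ ∀ L ≤ c, ∀ y, Comp z y → ∃ n ≤ B, ∃ y', Win z L p y n y' := by
  choose B hB using fun L => exists_bound z L p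
  refine ⟨2 * (p + ∑ L ∈ Finset.range (c + 1), B L) + 1, by omega, by omega, fun L hL y hy => ?_⟩
  obtain ⟨n, hn, y', hw⟩ := hB L y hy
  refine ⟨n, ?_, y', hw⟩
  have : B L ≤ ∑ L ∈ Finset.range (c + 1), B L :=
    Finset.single_le_sum (f := B) (fun _ _ => Nat.zero_le _) (Finset.mem_range.2 (by omega))
  omega

/-- the partition -/
theorem exists_partition (z : ℕ → Bool) (cap : ℕ → ℕ) :
    ∃ a : ℕ → ℕ, StrictMono a ∧ (∀ i, a i % 2 = 1) ∧
      ∀ i, ∀ L ≤ cap i, ∀ y, Comp z y → ∃ n ≤ a (i + 1), ∃ y', Win z L (a i + 1) y n y' := by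
  choose q h1 h2 h3 using fun c p => exists_bound' z c p
  let a : ℕ → ℕ := fun i => Nat.rec 1 (fun i v => q (cap i) (v + 1)) i
  have ha : ∀ i, a (i + 1) = q (cap i) (a i + 1) := fun i => rfl
  refine ⟨a, strictMono_nat_of_lt_succ fun i => ?_, fun i => ?_, fun i L hL y hy => ?_⟩
  · rw [ha]
    exact h2 (cap i) (a i + 1)
  · cases i with
    | zero => rfl
    | succ i =>
      rw [ha]
      exact h1 _ _
  · rw [ha]
    exact h3 (cap i) (a i + 1) L hL y hy

theorem tle_of_comp {z y : ℕ → Bool} (h : Comp z y) : TLE z y := by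
  have h1 : Primrec fun n : ℕ => 2 * n := Primrec.nat_mul.comp (Primrec.const 2) Primrec.id
  have h2 := TLE.sub (x := y) h1
  have h3 : (fun n => y (2 * n)) = z := funext h
  rwa [h3] at h2

/-- The construction. -/
theorem construct : ∃ c e0 : ℕ, ∀ (z : ℕ → Bool) (cap : ℕ → ℕ), ∃ a : ℕ → ℕ, StrictMono a ∧
    ∀ (ι L : ℕ → ℕ), StrictMono ι → (∀ j, L j ≤ cap (ι j)) → ack c e0 ≤ L 0 →
      (∀ j, ack c (L j) ≤ L (j + 1)) → ∃ y, TLE z y ∧ ∀ j n, a (ι j + 1) ≤ n →
        n ≤ a (ι (j + 1)) → Settled y (L j) n ∧ ¬ Settled y (ack c (L j)) n := by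
  obtain ⟨c, hc⟩ := exists_first_marker
  obtain ⟨e0, he0⟩ := exists_all
  refine ⟨c, e0, fun z cap => ?_⟩
  obtain ⟨a, ha, hodd, hW⟩ := exists_partition z cap
  refine ⟨a, ha, fun ι L hι hL hL0 hLs => ?_⟩
  have h1 : ∀ (j : ℕ) (y : ℕ → Bool), ∃ n y', Comp z y →
      (n ≤ a (ι j + 1) ∧ Win z (L j) (a (ι j) + 1) y n y') := by
    intro j y
    by_cases hy : Comp z y
    · obtain ⟨n, hn, y', hw⟩ := hW (ι j) (L j) (hL j) y hy
      exact ⟨n, y', fun _ => ⟨hn, hw⟩⟩
    · exact ⟨0, y, fun h => absurd h hy⟩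
  choose N Y hNY using h1
  let mark : ℕ → (ℕ → Bool) → (ℕ → Bool) := fun j y => Function.update y (a (ι j)) true
  let w : ℕ → (ℕ → Bool) := fun j => Nat.rec (join z fun _ => false)
    (fun j v => Y j (mark j v)) j
  have hw0 : w 0 = join z fun _ => false := rfl
  have hws : ∀ j, w (j + 1) = Y j (mark j (w j)) := fun j => rfl
  let m : ℕ → ℕ := fun j => Nat.casesOn j 0 fun j => N j (mark j (w j))
  have hm0 : m 0 = 0 := rfl
  have hms : ∀ j, m (j + 1) = N j (mark j (w j)) := fun j => rfl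
  have hmark : ∀ j y, Comp z y → Comp z (mark j y) := by
    intro j y hy i
    have h2 := hodd (ι j)
    change Function.update y (a (ι j)) true (2 * i) = z i
    rw [Function.update_of_ne (by omega), hy i]
  have hcomp0 : Comp z (w 0) := by
    intro i
    rw [hw0]
    simp [join]
  have hcomp : ∀ j, Comp z (w j) := by
    intro j
    induction j with
    | zero => exact hcomp0
    | succ j ih =>
      rw [hws]
      exact (hNY j _ (hmark j _ ih)).2.2.1
  have hstep : ∀ j, m (j + 1) ≤ a (ι j + 1) ∧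
      Win z (L j) (a (ι j) + 1) (mark j (w j)) (m (j + 1)) (w (j + 1)) := fun j =>
    hNY j _ (hmark j _ (hcomp j))
  have hιs : ∀ j, a (ι j + 1) ≤ a (ι (j + 1)) := fun j =>
    ha.monotone (Nat.succ_le_of_lt (hι (Nat.lt_succ_self j)))
  have hmle : ∀ j, m j ≤ a (ι j) := by
    intro j
    cases j with
    | zero => exact Nat.zero_le _
    | succ j => exact (hstep j).1.trans (hιs j)
  have hag1 : ∀ j, ∀ i < a (ι j), w (j + 1) i = w j i := by
    intro j i hi
    rw [(hstep j).2.2.2.1 i (by omega)]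
    exact Function.update_of_ne (by omega) _ _
  have hag2 : ∀ j, w (j + 1) (a (ι j)) = true := by
    intro j
    rw [(hstep j).2.2.2.1 _ (by omega)]
    exact Function.update_self _ _ _
  have hag : ∀ j k, j ≤ k → ∀ i < a (ι j), w k i = w j i := by
    intro j k hjk
    induction k, hjk using Nat.le_induction with
    | base => exact fun i _ => rfl
    | succ k hk ih =>
      intro i hi
      rw [hag1 k i (hi.trans_le (ha.monotone (hι.monotone hk))), ih i hi]
  have hlt : ∀ i, i < a (ι (i + 1)) := fun i =>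
    lt_of_lt_of_le (Nat.lt_succ_self i) ((hι.le_apply).trans ha.le_apply)
  let y : ℕ → Bool := fun i => w (i + 1) i
  have hy : ∀ j, ∀ i < a (ι j), y i = w j i := by
    intro j i hi
    rcases le_total j (i + 1) with h | h
    · exact hag j (i + 1) h i hi
    · exact (hag (i + 1) j h i (hlt i)).symm
  have hycomp : Comp z y := fun i => hcomp (2 * i + 1) i
  have hym : ∀ j, ∀ i < m j, y i = w j i := fun j i hi => hy j i (hi.trans_le (hmle j))
  -- the lower bound
  have hzero : ∀ j, ∀ q < a (ι j), m j ≤ q → q % 2 = 1 → y q = false := by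
    intro j q hq hmq hq2
    rw [hy j q hq]
    cases j with
    | zero =>
      rw [hw0]
      have : ¬ q % 2 = 0 := by omega
      simp [join, this]
    | succ j =>
      rw [← (hstep j).2.2.2.2.1]
      exact cut_of_odd hmq hq2
  have hclaim : ∀ j, ∃ e ≤ Nat.casesOn (motive := fun _ => ℕ) j e0 L, First e y (m j) := by
    intro j
    induction j with
    | zero => exact ⟨e0, le_rfl, he0 _, fun l hl => absurd hl (Nat.not_lt_zero l)⟩
    | succ j ih =>
      rcases (hstep j).2.2.2.2.2.2 with h | ⟨e, he, h⟩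
      · obtain ⟨e, he, hf⟩ := ih
        obtain ⟨e', he', H⟩ := hc e
        refine ⟨e', ?_, ?_⟩
        · refine he'.trans ((ack_mono_right c he).trans ?_)
          cases j with
          | zero => exact hL0
          | succ j => exact hLs j
        · rw [h]
          refine H y (m j) (a (ι j)) hf (hmle j) (hodd _) ?_ (hzero j)
          rw [hy (j + 1) _ (ha (hι (Nat.lt_succ_self j)))]
          exact hag2 j
      · exact ⟨e, he, h.congr (hym (j + 1))⟩
  refine ⟨y, tle_of_comp hycomp, fun j n hn1 hn2 => ⟨?_, ?_⟩⟩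
  · intro e he hl
    rcases ((hstep j).2.2.2.2.2.1 e he) with ⟨l, hl1, hl2⟩ | h
    · refine ⟨l, hl1.trans ((hstep j).1.trans hn1), hl2.congr fun i hi => ?_⟩
      exact hym (j + 1) i (hi.trans_le hl1)
    · obtain ⟨l, hl⟩ := hl
      exact absurd hl (h y hycomp (hym (j + 1)) l)
  · obtain ⟨e, he, hf⟩ := hclaim (j + 1)
    obtain ⟨e', he', H⟩ := hc e
    refine not_settled_of_first (he'.trans (ack_mono_right c he))
      (H y (m (j + 1)) (a (ι (j + 1))) hf (hmle (j + 1)) (hodd _) ?_ (hzero (j + 1))) (by omega)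
    rw [hy (j + 2) _ (ha (hι (Nat.lt_succ_self (j + 1))))]
    exact hag2 (j + 1)

end Pool.Agent.Helper56TB
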