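import Mathlib
import Pool.Agent.Helper56_TB.Construct

/-!
# Winning strategies and cones; the combinatorial characterization
-/

set_option autoImplicit false

namespace Pool.Agent.Helper56TB

open Pool.Agent.Helper25TD

theorem turingInvariant_clocked (B : Set (ℕ → Bool)) : TuringInvariant (Clocked B) := by
  rintro x y hxy hyx ⟨y', h1, h2, h3⟩
  exact ⟨y', hyx.trans h1, h2.trans hxy, h3⟩

/-! ### cones -/

theorem exists_play_le {r : ℕ} (s : List Bool → Bool) :
    ∃ z, ∀ y, TLE z y → TLE (play r s y) y := by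
  obtain ⟨z1, z2, h⟩ := exists_table_continuous (continuous_play r s)
  exact ⟨join z1 z2, fun y hy => h y y (TLE.refl y) ((TLE.join_left z1 z2).trans hy)
    ((TLE.join_right z1 z2).trans hy)⟩

theorem le_play {r : ℕ} (hr : r < 2) (s : List Bool → Bool) (y : ℕ → Bool) :
    TLE y (play r s y) := by
  have h1 : Primrec fun l : ℕ => 2 * l + (1 - r) :=
    Primrec.nat_add.comp (Primrec.nat_mul.comp (Primrec.const 2) Primrec.id) (Primrec.const _)
  have h2 := TLE.sub (x := play r s y) h1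
  have h3 : (fun n => play r s y (2 * n + (1 - r))) = y := by
    funext l
    rw [play_ne r s y (by omega)]
    have : (2 * l + (1 - r)) / 2 = l := by omega
    rw [this]
  rwa [h3] at h2

theorem cone_of_winsI {W : Set (ℕ → Bool)} (hW : TuringInvariant W) (h : WinsI W) :
    ∃ z, ∀ y, TLE z y → y ∈ W := by
  obtain ⟨σ, hσ⟩ := h
  obtain ⟨z, hz⟩ := exists_play_le (r := 0) σ
  refine ⟨z, fun y hy => hW (play 0 σ y) y (hz y hy) (le_play (by norm_num) σ y) ?_⟩
  exact hσ _ fun n => play_eq 0 σ y (by omega)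

theorem cone_of_winsII {W : Set (ℕ → Bool)} (hW : TuringInvariant W) (h : WinsII W) :
    ∃ z, ∀ y, TLE z y → y ∉ W := by
  obtain ⟨τ, hτ⟩ := h
  obtain ⟨z, hz⟩ := exists_play_le (r := 1) τ
  refine ⟨z, fun y hy hyW => hτ (play 1 τ y) (fun n => play_eq 1 τ y (by omega)) ?_⟩
  exact hW y _ (le_play (by norm_num) τ y) (hz y hy) hyW

theorem winsI_of_cone {W : Set (ℕ → Bool)} {z : ℕ → Bool} (h : ∀ y, TLE z y → y ∈ W) :
    WinsI W := by
  refine ⟨fun l => z (l.length / 2), fun x hx => h x ?_⟩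
  have h1 : Primrec fun l : ℕ => 2 * l := Primrec.nat_mul.comp (Primrec.const 2) Primrec.id
  have h2 := TLE.sub (x := x) h1
  have h3 : (fun n => x (2 * n)) = z := by
    funext n
    rw [hx n]
    change z ((pre x (2 * n)).length / 2) = z n
    rw [length_pre]
    congr 1
    omega
  rwa [h3] at h2

theorem winsII_of_cone {W : Set (ℕ → Bool)} {z : ℕ → Bool} (h : ∀ y, TLE z y → y ∉ W) :
    WinsII W := by
  refine ⟨fun l => z (l.length / 2), fun x hx => h x ?_⟩
  have h1 : Primrec fun l : ℕ => 2 * l + 1 := Primrec.succ.comp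
    (Primrec.nat_mul.comp (Primrec.const 2) Primrec.id)
  have h2 := TLE.sub (x := x) h1
  have h3 : (fun n => x (2 * n + 1)) = z := by
    funext n
    rw [hx n]
    change z ((pre x (2 * n + 1)).length / 2) = z n
    rw [length_pre]
    congr 1
    omega
  rwa [h3] at h2

/-! ### the two alternatives -/

/-- some element of `B` is almost contained in every infinite union of the intervals -/
def Large (B : Set (ℕ → Bool)) (a : ℕ → ℕ) : Prop :=
  ∀ A : Set ℕ, A.Infinite → ∃ x ∈ B, AlmostIn x (⋃ i ∈ A, Set.Ico (a i) (a (i + 1)))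

/-- every element of `B` meets all but finitely many of the intervals -/
def Small (B : Set (ℕ → Bool)) (a : ℕ → ℕ) : Prop :=
  ∀ x ∈ B, ∃ N, ∀ i ≥ N, ∃ n ∈ Set.Ico (a i) (a (i + 1)), x n = true

theorem locate {a ι : ℕ → ℕ} (ha : StrictMono a) (hι : StrictMono ι) (J n : ℕ)
    (hn : a (ι J + 1) ≤ n) (hgap : ∀ j, n ∉ Set.Ico (a (ι j)) (a (ι j + 1))) :
    ∃ j ≥ J, a (ι j + 1) ≤ n ∧ n ≤ a (ι (j + 1)) := by
  classical
  have hex : ∃ j, n < a (ι j + 1) := ⟨n, by
    have h1 : n ≤ ι n := hι.le_apply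
    have h2 : ι n + 1 ≤ a (ι n + 1) := ha.le_apply
    omega⟩
  have hJ : J < Nat.find hex := by
    by_contra h
    push Not at h
    have h1 := Nat.find_spec hex
    have h2 : a (ι (Nat.find hex) + 1) ≤ a (ι J + 1) :=
      ha.monotone (Nat.add_le_add_right (hι.monotone h) 1)
    omega
  obtain ⟨j, hj⟩ : ∃ j, Nat.find hex = j + 1 := ⟨Nat.find hex - 1, by omega⟩
  refine ⟨j, by omega, ?_, ?_⟩
  · have := Nat.find_min hex (show j < Nat.find hex by omega)
    omega
  · have h1 := Nat.find_spec hex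
    rw [hj] at h1
    have h2 := hgap (j + 1)
    rw [Set.mem_Ico] at h2
    by_contra h3
    exact h2 ⟨by omega, h1⟩

theorem exists_enum {A : Set ℕ} (hA : A.Infinite) :
    ∃ ι : ℕ → ℕ, StrictMono ι ∧ ∀ i, i ∈ A ↔ ∃ j, ι j = i := by
  classical
  refine ⟨Nat.nth (· ∈ A), Nat.nth_strictMono hA, fun i => ?_⟩
  have h : Set.range (Nat.nth (· ∈ A)) = A := Nat.range_nth_of_infinite hA
  rw [← Set.mem_range, h]

theorem exists_gaps : ∃ c, ∀ z : ℕ → Bool, ∃ a : ℕ → ℕ, StrictMono a ∧ ∀ A : Set ℕ, A.Infinite →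
    ∀ d, d = 1 ∨ d = 3 → ∃ y, TLE z y ∧ ∀ K, ∃ N, ∀ n ≥ N,
      n ∉ (⋃ i ∈ A, Set.Ico (a i) (a (i + 1))) → ∃ k ≥ K,
        Settled y (ack (4 * k + d) (4 * k + d)) n ∧
        ¬ Settled y (ack c (ack (4 * k + d) (4 * k + d))) n := by
  obtain ⟨c, e0, H⟩ := construct
  refine ⟨c, fun z => ?_⟩
  obtain ⟨a, ha, h⟩ := H z fun i => ack (4 * (i + (c + e0)) + 3) (4 * (i + (c + e0)) + 3)
  refine ⟨a, ha, fun A hA d hd => ?_⟩
  obtain ⟨ι, hι, hι'⟩ := exists_enum hA
  obtain ⟨y, hzy, hy⟩ := h ι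
    (fun j => ack (4 * (j + (c + e0)) + d) (4 * (j + (c + e0)) + d)) hι
    (fun j => sc_mono (by
      have : j ≤ ι j := hι.le_apply
      omega))
    (ack_le_ack (by omega) (by omega))
    (fun j => (growth (by omega)).trans (sc_mono (by omega)))
  refine ⟨y, hzy, fun K => ⟨a (ι K + 1), fun n hn hn' => ?_⟩⟩
  obtain ⟨j, hj, h1, h2⟩ := locate ha hι K n hn (fun j hmem => hn' (by
    simp only [Set.mem_iUnion]
    exact ⟨ι j, (hι' _).2 ⟨j, rfl⟩, hmem⟩))
  exact ⟨j + (c + e0), by omega, hy j n h1 h2⟩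

theorem large_of_winsI {B : Set (ℕ → Bool)} (h : WinsI (Clocked B)) :
    ∃ a : ℕ → ℕ, StrictMono a ∧ Large B a := by
  obtain ⟨z, hz⟩ := cone_of_winsI (turingInvariant_clocked B) h
  obtain ⟨c, H⟩ := exists_gaps
  obtain ⟨a, ha, H⟩ := H z
  refine ⟨a, ha, fun A hA => ?_⟩
  obtain ⟨y, hzy, hy⟩ := H A hA 3 (Or.inr rfl)
  obtain ⟨y', hyy', hy'y, x, hx, N1, hN1⟩ := hz y hzy
  obtain ⟨K, hK⟩ := not_mem_phase hy'y hyy' c
  obtain ⟨N2, hN2⟩ := hy K
  refine ⟨x, hx, max N1 N2, fun n hn hxn => ?_⟩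
  by_contra hcon
  obtain ⟨k, hk, h1, h2⟩ := hN2 n ((le_max_right _ _).trans hn) hcon
  exact hK k hk n h1 h2 (hN1 n ((le_max_left _ _).trans hn) hxn)

theorem small_of_winsII {B : Set (ℕ → Bool)} (h : WinsII (Clocked B)) :
    ∃ a : ℕ → ℕ, StrictMono a ∧ Small B a := by
  obtain ⟨z, hz⟩ := cone_of_winsII (turingInvariant_clocked B) h
  obtain ⟨c, H⟩ := exists_gaps
  obtain ⟨a, ha, H⟩ := H z
  refine ⟨a, ha, fun x hx => ?_⟩
  by_contra hcon
  push Not at hcon
  have hA : {i | ∀ n ∈ Set.Ico (a i) (a (i + 1)), x n ≠ true}.Infinite :=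
    Set.infinite_of_forall_exists_gt fun N => by
      obtain ⟨i, hi, h1⟩ := hcon (N + 1)
      exact ⟨i, fun n hn => by simpa using h1 n hn, by omega⟩
  obtain ⟨y, hzy, hy⟩ := H _ hA 1 (Or.inl rfl)
  obtain ⟨K, hK⟩ := mem_phase (TLE.refl y) (TLE.refl y) c
  obtain ⟨N, hN⟩ := hy K
  refine hz y hzy ⟨y, TLE.refl y, TLE.refl y, x, hx, N, fun n hn hxn => ?_⟩
  obtain ⟨k, hk, h1, h2⟩ := hN n hn (fun hmem => by
    simp only [Set.mem_iUnion] at hmem
    obtain ⟨i, hi, hni⟩ := hmem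
    exact hi n hni hxn)
  exact hK k hk n h1 h2

/-! ### the converse -/

theorem exists_settled (y : ℕ → Bool) {e0 : ℕ} (he0 : ∀ l, l ∈ RE e0) (m : ℕ) (hm : e0 ≤ m) :
    ∃ t, Settled y m t ∧ ∃ e ≤ m, First e y t := by
  classical
  have hex : ∀ m, ∃ t, Settled y m t := by
    intro m
    induction m with
    | zero =>
      by_cases h : ∃ l, Meets 0 y l
      · obtain ⟨l, hl⟩ := h
        refine ⟨l, fun e he _ => ⟨l, le_rfl, ?_⟩⟩
        rw [Nat.le_zero.1 he]
        exact hl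
      · refine ⟨0, fun e he hl => absurd ?_ h⟩
        rw [Nat.le_zero.1 he] at hl
        exact hl
    | succ m ih =>
      obtain ⟨t, ht⟩ := ih
      by_cases h : ∃ l, Meets (m + 1) y l
      · obtain ⟨l, hl⟩ := h
        refine ⟨max t l, fun e he hl' => ?_⟩
        rcases Nat.lt_or_ge m e with h1 | h1
        · have : e = m + 1 := by omega
          subst this
          exact ⟨l, le_max_right _ _, hl⟩
        · obtain ⟨l', h2, h3⟩ := ht e h1 hl'
          exact ⟨l', h2.trans (le_max_left _ _), h3⟩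
      · refine ⟨t, fun e he hl' => ?_⟩
        rcases Nat.lt_or_ge m e with h1 | h1
        · have : e = m + 1 := by omega
          subst this
          exact absurd hl' h
        · exact ht e h1 hl'
  obtain ⟨t, hS, hmin⟩ : ∃ t, Settled y m t ∧ ∀ s < t, ¬ Settled y m s :=
    ⟨Nat.find (hex m), Nat.find_spec (hex m), fun s hs => Nat.find_min (hex m) hs⟩
  refine ⟨t, hS, ?_⟩
  rcases Nat.eq_zero_or_pos t with h0 | h0
  · exact ⟨e0, hm, he0 _, fun l hl => absurd hl (by omega)⟩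
  · have h1 := hmin (t - 1) (by omega)
    unfold Settled at h1
    push Not at h1
    obtain ⟨e, he, hl, h2⟩ := h1
    obtain ⟨l, hl1, hl2⟩ := hS e he hl
    have h3 : l = t := by
      by_contra hne
      exact h2 l (by omega) hl2
    refine ⟨e, he, ?_, fun l' hl' hm' => h2 l' (by omega) hm'⟩
    rw [h3] at hl2
    exact hl2

theorem exists_length (b : ℕ) : ∃ e, ∀ l : List Bool, l ∈ RE e ↔ b ≤ l.length := by
  classical
  have hQ : Primrec₂ fun (l : List Bool) (_ : ℕ) => if b ≤ l.length then some l else none :=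
    Primrec.ite (Primrec.nat_le.comp (Primrec.const b) (Primrec.list_length.comp Primrec.fst))
      (Primrec.option_some.comp Primrec.fst) (Primrec.const none)
  obtain ⟨c, hc⟩ := exists_reindex _ hQ
  obtain ⟨e0, he0⟩ := exists_all
  obtain ⟨e', -, H⟩ := hc e0
  refine ⟨e', fun l => (H l).trans ⟨?_, fun h => ⟨0, Nat.zero_le _, l, ?_, he0 l⟩⟩⟩
  · rintro ⟨j, -, l', hl', -⟩
    by_contra h
    simp [h] at hl'
  · simp [h]

/-- a real that computes the partition has long gaps at all large indices -/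
theorem exists_blocks {y : ℕ → Bool} {a : ℕ → ℕ} (ha : StrictMono a) (hy : TR y a) :
    ∃ c, ∀ b, ∃ M, ∀ m ≥ M, ∃ i ≥ b, ∀ n ∈ Set.Ico (a i) (a (i + 1)),
      Settled y m n ∧ ¬ Settled y (ack c m) n := by
  have h1 : TR y fun j => a (j + 1) := hy.comp (TR.prim Primrec.succ)
  obtain ⟨c, hc⟩ := exists_dominate h1
  obtain ⟨e0, he0⟩ := exists_all
  refine ⟨c, fun b => ?_⟩
  obtain ⟨eb, heb⟩ := exists_length b
  refine ⟨max e0 eb, fun m hm => ?_⟩
  obtain ⟨t, ht, e, he, hf⟩ := exists_settled y he0 m ((le_max_left _ _).trans hm)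
  refine ⟨t, ?_, fun n hn => ?_⟩
  · obtain ⟨l, hl1, hl2⟩ := ht eb ((le_max_right _ _).trans hm) ⟨b, by
      refine (heb _).2 ?_
      rw [length_pre]⟩
    have h2 := (heb _).1 hl2
    rw [length_pre] at h2
    exact h2.trans hl1
  · rw [Set.mem_Ico] at hn
    refine ⟨ht.mono le_rfl ((ha.le_apply : t ≤ a t).trans hn.1), ?_⟩
    obtain ⟨e', he', H1, H2⟩ := hc e
    intro hs
    obtain ⟨l, hl, hl'⟩ := hs e' (he'.trans (ack_mono_right c he)) (H2 ⟨t, hf.1⟩)
    obtain ⟨j, hj, hj', hj''⟩ := H1 l hl'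
    have htj : t ≤ j := by
      by_contra hlt
      exact hf.2 j (by omega) hj''
    have h3 : a (t + 1) ≤ a (j + 1) := ha.monotone (by omega)
    omega

/-- every function is computable from some real -/
theorem exists_code_fun (a : ℕ → ℕ) : ∃ z, ∀ y, TLE z y → TR y a := by
  classical
  let z : ℕ → Bool := fun p => decide (a p.unpair.1 = p.unpair.2)
  refine ⟨z, fun y hy => ?_⟩
  have h1 : TR y fun p => 1 - (z p).toNat := by
    have h2 : TR y fun n => 1 - n := TR.prim (Primrec.nat_sub.comp (Primrec.const 1) Primrec.id)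
    exact h2.comp (TR.of_le hy)
  refine TR.rfind h1 (fun i => ?_) (fun i n hn => ?_)
  · have : z (Nat.pair i (a i)) = true := by simp [z]
    simp [this]
  · have : z (Nat.pair i n) = false := by
      simp only [z, Nat.unpair_pair, decide_eq_false_iff_not]
      omega
    simp [this]

theorem sc_ge (r : ℕ) : r ≤ ack r r := (lt_ack_left r r).le

theorem winsI_of_large {B : Set (ℕ → Bool)} {a : ℕ → ℕ} (ha : StrictMono a) (h : Large B a) :
    WinsI (Clocked B) := by
  obtain ⟨z, hz⟩ := exists_code_fun a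
  refine winsI_of_cone (z := z) fun y hy => ⟨y, TLE.refl y, TLE.refl y, ?_⟩
  obtain ⟨c, hc⟩ := exists_blocks ha (hz y hy)
  obtain ⟨K, hK⟩ := mem_phase (TLE.refl y) (TLE.refl y) c
  have hA : {i | Set.Ico (a i) (a (i + 1)) ⊆ Phase y}.Infinite :=
    Set.infinite_of_forall_exists_gt fun b => by
      obtain ⟨M, hM⟩ := hc (b + 1)
      have h1 := sc_ge (4 * (K + M) + 1)
      obtain ⟨i, hi, H⟩ := hM (ack (4 * (K + M) + 1) (4 * (K + M) + 1)) (by omega)
      exact ⟨i, fun n hn => hK (K + M) (by omega) n (H n hn).1 (H n hn).2, by omega⟩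
  obtain ⟨x, hx, N, hN⟩ := h _ hA
  refine ⟨x, hx, N, fun n hn hxn => ?_⟩
  have h2 := hN n hn hxn
  simp only [Set.mem_iUnion] at h2
  obtain ⟨i, hi, hni⟩ := h2
  exact hi hni

theorem winsII_of_small {B : Set (ℕ → Bool)} {a : ℕ → ℕ} (ha : StrictMono a) (h : Small B a) :
    WinsII (Clocked B) := by
  obtain ⟨z, hz⟩ := exists_code_fun a
  refine winsII_of_cone (z := z) fun y hy => ?_
  rintro ⟨y', hyy', hy'y, x, hx, N, hN⟩
  obtain ⟨c, hc⟩ := exists_blocks ha (hz y hy)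
  obtain ⟨K, hK⟩ := not_mem_phase hy'y hyy' c
  obtain ⟨N1, hN1⟩ := h x hx
  obtain ⟨M, hM⟩ := hc (N + N1)
  have h1 := sc_ge (4 * (K + M) + 3)
  obtain ⟨i, hi, H⟩ := hM (ack (4 * (K + M) + 3) (4 * (K + M) + 3)) (by omega)
  obtain ⟨n, hn, hxn⟩ := hN1 i (by omega)
  have h2 : i ≤ a i := ha.le_apply
  refine hK (K + M) (by omega) n (H n hn).1 (H n hn).2 (hN n ?_ hxn)
  rw [Set.mem_Ico] at hn
  omega

end Pool.Agent.Helper56TB
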