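import Mathlib
import Pool.Agent.Helper56_TB.Games

/-!
# The topological form of the two alternatives (Talagrand, Jalali-Naini)
-/

set_option autoImplicit false

namespace Pool.Agent.Helper56TB

open Pool.Agent.Helper25TD

theorem isMeagre_blocks {a : ℕ → ℕ} (ha : StrictMono a) (b : Bool) :
    IsMeagre {y : ℕ → Bool | ∃ N, ∀ i ≥ N, ∃ n ∈ Set.Ico (a i) (a (i + 1)), y n = b} := by
  have h1 : {y : ℕ → Bool | ∃ N, ∀ i ≥ N, ∃ n ∈ Set.Ico (a i) (a (i + 1)), y n = b} =
      ⋃ N, {y : ℕ → Bool | ∀ i ≥ N, ∃ n ∈ Set.Ico (a i) (a (i + 1)), y n = b} := by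
    ext y
    simp
  rw [h1]
  refine isMeagre_iUnion fun N => ?_
  have hcl : IsClosed {y : ℕ → Bool | ∀ i ≥ N, ∃ n ∈ Set.Ico (a i) (a (i + 1)), y n = b} := by
    have h2 : {y : ℕ → Bool | ∀ i ≥ N, ∃ n ∈ Set.Ico (a i) (a (i + 1)), y n = b} =
        ⋂ i, ⋂ (_ : i ≥ N), ⋃ n ∈ Finset.Ico (a i) (a (i + 1)), {y : ℕ → Bool | y n = b} := by
      ext y
      simp
    rw [h2]
    refine isClosed_iInter fun i => isClosed_iInter fun _ => ?_
    refine Set.Finite.isClosed_biUnion (Finset.finite_toSet _) fun n _ => ?_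
    exact (isClosed_discrete {b}).preimage (continuous_apply n : Continuous fun y : ℕ → Bool => y n)
  refine IsNowhereDense.isMeagre ?_
  rw [hcl.isNowhereDense_iff]
  rw [Set.eq_empty_iff_forall_notMem]
  intro y hy
  obtain ⟨U, hU, hUo, hyU⟩ := mem_interior.1 hy
  obtain ⟨M, hM⟩ := exists_cyl hUo hyU
  let y' : ℕ → Bool := fun n => if n < M then y n else !b
  have hy' : y' ∈ U := hM y' fun j hj => if_pos hj
  obtain ⟨n, hn, hyn⟩ := hU hy' (max N M) (le_max_left _ _)
  rw [Set.mem_Ico] at hn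
  have h3 : max N M ≤ a (max N M) := ha.le_apply
  have h4 : ¬ n < M := by
    have := le_max_right N M
    omega
  simp only [y', h4, if_false] at hyn
  cases b <;> simp at hyn

/-- In a dense open set one can enter by a fixed block of values. -/
theorem exists_block {D : Set (ℕ → Bool)} (hD : IsOpen D) (hD' : Dense D) (p : ℕ) :
    ∃ q > p, ∃ u : ℕ → Bool, ∀ y : ℕ → Bool, (∀ n ∈ Set.Ico p q, y n = u n) → y ∈ D := by
  classical
  have key : ∀ T : Finset (Fin p → Bool), ∃ q > p, ∃ u : ℕ → Bool, ∀ y : ℕ → Bool,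
      (∀ n ∈ Set.Ico p q, y n = u n) → (fun i : Fin p => y i) ∈ T → y ∈ D := by
    intro T
    induction T using Finset.induction_on with
    | empty => exact ⟨p + 1, by omega, fun _ => false, fun y _ h => absurd h (by simp)⟩
    | insert s T _ ih =>
      obtain ⟨q, hq, u, hu⟩ := ih
      let y0 : ℕ → Bool := fun n => if h : n < p then s ⟨n, h⟩ else u n
      obtain ⟨y1, hy1, hy1D⟩ := hD'.inter_open_nonempty {y | ∀ j < q, y j = y0 j}
        (isOpen_cyl y0 q) ⟨y0, fun _ _ => rfl⟩
      obtain ⟨q', hq'⟩ := exists_cyl hD hy1D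
      refine ⟨max q q', lt_of_lt_of_le hq (le_max_left _ _), y1, fun y hy hys => ?_⟩
      rcases Finset.mem_insert.1 hys with h | h
      · refine hq' y fun j hj => ?_
        by_cases hjp : j < p
        · have h1 : y j = s ⟨j, hjp⟩ := congrFun h ⟨j, hjp⟩
          rw [h1, hy1 j (hjp.trans hq)]
          simp [y0, hjp]
        · exact hy j ⟨by omega, lt_of_lt_of_le hj (le_max_right _ _)⟩
      · refine hu y (fun n hn => ?_) h
        rw [Set.mem_Ico] at hn
        rw [hy n ⟨hn.1, lt_of_lt_of_le hn.2 (le_max_left _ _)⟩, hy1 n hn.2]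
        have : ¬ n < p := by omega
        simp [y0, this]
  obtain ⟨q, hq, u, hu⟩ := key Finset.univ
  exact ⟨q, hq, u, fun y hy => hu y hy (Finset.mem_univ _)⟩

/-- A comeager set contains all reals that match infinitely many of certain blocks. -/
theorem exists_match {R : Set (ℕ → Bool)} (hR : R ∈ residual (ℕ → Bool)) :
    ∃ (a : ℕ → ℕ) (u : ℕ → ℕ → Bool), StrictMono a ∧ ∀ y : ℕ → Bool,
      (∀ N, ∃ i ≥ N, ∀ n ∈ Set.Ico (a i) (a (i + 1)), y n = u i n) → y ∈ R := by
  obtain ⟨S, hSo, hSd, hSc, hSR⟩ := mem_residual_iff.1 hR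
  obtain ⟨D, hD⟩ : ∃ D : ℕ → Set (ℕ → Bool), (∀ i, IsOpen (D i) ∧ Dense (D i)) ∧
      ⋂ i, D i ⊆ R := by
    rcases S.eq_empty_or_nonempty with h | h
    · refine ⟨fun _ => Set.univ, fun _ => ⟨isOpen_univ, dense_univ⟩, fun y _ => hSR ?_⟩
      rw [h]
      simp
    · obtain ⟨D, hD⟩ := hSc.exists_eq_range h
      refine ⟨D, fun i => ⟨hSo _ ?_, hSd _ ?_⟩, fun y hy => hSR ?_⟩
      · rw [hD]
        exact Set.mem_range_self i
      · rw [hD]
        exact Set.mem_range_self i
      · rw [hD, Set.sInter_range]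
        exact hy
  have hE : ∀ i, IsOpen (⋂ j ∈ Finset.range (i + 1), D j) ∧
      Dense (⋂ j ∈ Finset.range (i + 1), D j) := by
    intro i
    induction i with
    | zero => simpa using hD.1 0
    | succ i ih =>
      rw [Finset.range_add_one, Finset.set_biInter_insert]
      exact ⟨(hD.1 _).1.inter ih.1, (hD.1 _).2.inter_of_isOpen_left ih.2 (hD.1 _).1⟩
  choose q hq u hu using fun i => exists_block (hE i).1 (hE i).2
  let a : ℕ → ℕ := fun i => Nat.rec 0 (fun i v => q i v) i
  have ha : ∀ i, a (i + 1) = q i (a i) := fun i => rfl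
  refine ⟨a, fun i => u i (a i), strictMono_nat_of_lt_succ fun i => ?_, fun y hy => hD.2 ?_⟩
  · rw [ha]
    exact hq i (a i)
  · refine Set.mem_iInter.2 fun j => ?_
    obtain ⟨i, hi, h⟩ := hy j
    have h1 := hu i (a i) y h
    simp only [Set.mem_iInter] at h1
    exact h1 j (Finset.mem_range.2 (by omega))

theorem isMeagre_hull_of_small {B : Set (ℕ → Bool)} {a : ℕ → ℕ} (ha : StrictMono a)
    (h : Small B a) : IsMeagre (Hull B) := by
  refine (isMeagre_blocks ha true).mono ?_
  rintro y ⟨x, hx, N, hN⟩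
  obtain ⟨N1, hN1⟩ := h x hx
  refine ⟨max N N1, fun i hi => ?_⟩
  obtain ⟨n, hn, hxn⟩ := hN1 i ((le_max_right _ _).trans hi)
  refine ⟨n, hn, hN n ?_ hxn⟩
  have h1 : i ≤ a i := ha.le_apply
  rw [Set.mem_Ico] at hn
  have := le_max_left N N1
  omega

theorem small_of_isMeagre_hull {B : Set (ℕ → Bool)} (h : IsMeagre (Hull B)) :
    ∃ a : ℕ → ℕ, StrictMono a ∧ Small B a := by
  classical
  obtain ⟨a, u, ha, H⟩ := exists_match h
  refine ⟨a, ha, fun x hx => ?_⟩
  by_contra hcon
  push Not at hcon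
  let y : ℕ → Bool := fun n => x n || decide (∃ i, n ∈ Set.Ico (a i) (a (i + 1)) ∧
    (∀ l ∈ Set.Ico (a i) (a (i + 1)), x l ≠ true) ∧ u i n = true)
  refine H y (fun N => ?_) ⟨x, hx, 0, fun n _ hn => by simp [y, hn]⟩
  obtain ⟨i, hi, h1⟩ := hcon N
  refine ⟨i, hi, fun n hn => ?_⟩
  have h2 : x n = false := by simpa using h1 n hn
  simp only [y, h2, Bool.false_or]
  cases h3 : u i n with
  | true => exact decide_eq_true ⟨i, hn, h1, h3⟩
  | false =>
    refine decide_eq_false ?_
    rintro ⟨j, hj, -, hj'⟩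
    have hij : j = i := by
      rw [Set.mem_Ico] at hn hj
      rcases lt_trichotomy i j with h4 | h4 | h4
      · have := ha.monotone (Nat.succ_le_of_lt h4)
        simp only [Nat.succ_eq_add_one] at this
        omega
      · exact h4.symm
      · have := ha.monotone (Nat.succ_le_of_lt h4)
        simp only [Nat.succ_eq_add_one] at this
        omega
    rw [hij, h3] at hj'
    exact absurd hj' (by simp)

theorem hull_mem_residual_of_large {B : Set (ℕ → Bool)} {a : ℕ → ℕ} (ha : StrictMono a)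
    (h : Large B a) : Hull B ∈ residual (ℕ → Bool) := by
  have h1 : IsMeagre (Hull B)ᶜ := by
    refine (isMeagre_blocks ha false).mono fun y hy => ?_
    by_contra hcon
    simp only [Set.mem_ofPred_eq, not_exists, not_forall] at hcon
    have hA : {i | ∀ n ∈ Set.Ico (a i) (a (i + 1)), y n = true}.Infinite :=
      Set.infinite_of_forall_exists_gt fun N => by
        obtain ⟨i, hi, h2⟩ := hcon (N + 1)
        exact ⟨i, fun n hn => by simpa using fun h3 => h2 n ⟨hn, h3⟩, by omega⟩
    obtain ⟨x, hx, N, hN⟩ := h _ hA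
    refine hy ⟨x, hx, N, fun n hn hxn => ?_⟩
    have h2 := hN n hn hxn
    simp only [Set.mem_iUnion] at h2
    obtain ⟨i, hi, hni⟩ := h2
    exact hi n hni
  have h2 : (Hull B)ᶜᶜ ∈ residual (ℕ → Bool) := h1
  rwa [compl_compl] at h2

theorem large_of_hull_mem_residual {B : Set (ℕ → Bool)} (h : Hull B ∈ residual (ℕ → Bool)) :
    ∃ a : ℕ → ℕ, StrictMono a ∧ Large B a := by
  classical
  obtain ⟨a, u, ha, H⟩ := exists_match h
  refine ⟨a, ha, fun A hA => ?_⟩
  let y : ℕ → Bool := fun n => decide (∃ i, n ∈ Set.Ico (a i) (a (i + 1)) ∧ i ∈ A ∧ u i n = true)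
  obtain ⟨x, hx, N, hN⟩ := H y (fun N => by
    obtain ⟨i, hi, hNi⟩ := hA.exists_gt N
    refine ⟨i, hNi.le, fun n hn => ?_⟩
    simp only [y]
    cases h3 : u i n with
    | true => exact decide_eq_true ⟨i, hn, hi, h3⟩
    | false =>
      refine decide_eq_false ?_
      rintro ⟨j, hj, -, hj'⟩
      have hij : j = i := by
        rw [Set.mem_Ico] at hn hj
        rcases lt_trichotomy i j with h4 | h4 | h4
        · have := ha.monotone (Nat.succ_le_of_lt h4)
          simp only [Nat.succ_eq_add_one] at this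
          omega
        · exact h4.symm
        · have := ha.monotone (Nat.succ_le_of_lt h4)
          simp only [Nat.succ_eq_add_one] at this
          omega
      rw [hij, h3] at hj'
      exact absurd hj' (by simp))
  refine ⟨x, hx, N, fun n hn hxn => ?_⟩
  have h1 := hN n hn hxn
  simp only [y, decide_eq_true_eq] at h1
  obtain ⟨i, hi, hiA, -⟩ := h1
  simp only [Set.mem_iUnion]
  exact ⟨i, hiA, hi⟩

theorem winsI_iff (B : Set (ℕ → Bool)) :
    WinsI (Clocked B) ↔ Hull B ∈ residual (ℕ → Bool) := by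
  constructor
  · intro h
    obtain ⟨a, ha, h⟩ := large_of_winsI h
    exact hull_mem_residual_of_large ha h
  · intro h
    obtain ⟨a, ha, h⟩ := large_of_hull_mem_residual h
    exact winsI_of_large ha h

theorem winsII_iff (B : Set (ℕ → Bool)) : WinsII (Clocked B) ↔ IsMeagre (Hull B) := by
  constructor
  · intro h
    obtain ⟨a, ha, h⟩ := small_of_winsII h
    exact isMeagre_hull_of_small ha h
  · intro h
    obtain ⟨a, ha, h⟩ := small_of_isMeagre_hull h
    exact winsII_of_small ha h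

end Pool.Agent.Helper56TB
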