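import Mathlib
import Pool.Agent.Helper56_TB.Category

/-!
# The zero-one law for the hull, and filters
-/

set_option autoImplicit false

namespace Pool.Agent.Helper56TB

open Pool.Agent.Helper25TD Topology

/-- addition modulo two -/
def flip (t : ℕ → Bool) : (ℕ → Bool) ≃ₜ (ℕ → Bool) where
  toFun x := fun n => xor (t n) (x n)
  invFun x := fun n => xor (t n) (x n)
  left_inv x := by
    funext n
    simp
  right_inv x := by
    funext n
    simp
  continuous_toFun := continuous_pi fun n =>
    (continuous_of_discreteTopology : Continuous fun b : Bool => xor (t n) b).comp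
      (continuous_apply n)
  continuous_invFun := continuous_pi fun n =>
    (continuous_of_discreteTopology : Continuous fun b : Bool => xor (t n) b).comp
      (continuous_apply n)

theorem flip_apply (t x : ℕ → Bool) (n : ℕ) : flip t x n = xor (t n) (x n) := rfl

theorem flip_mem_residual (t : ℕ → Bool) {s : Set (ℕ → Bool)} (hs : s ∈ residual (ℕ → Bool)) :
    {x | flip t x ∈ s} ∈ residual (ℕ → Bool) :=
  tendsto_residual_of_isOpenMap (flip t).continuous (flip t).isOpenMap hs

theorem hull_tail {B : Set (ℕ → Bool)} {x y : ℕ → Bool} {M : ℕ} (h : ∀ n ≥ M, y n = x n)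
    (hx : x ∈ Hull B) : y ∈ Hull B := by
  obtain ⟨w, hw, N, hN⟩ := hx
  refine ⟨w, hw, max M N, fun n hn hwn => ?_⟩
  rw [h n ((le_max_left _ _).trans hn)]
  exact hN n ((le_max_right _ _).trans hn) hwn

/-- The zero-one law. -/
theorem zero_one {B : Set (ℕ → Bool)} (h : BaireMeasurableSet (Hull B)) :
    Hull B ∈ residual (ℕ → Bool) ∨ IsMeagre (Hull B) := by
  classical
  obtain ⟨U, hU, hBU⟩ := h.residualEq_isOpen
  have hR : {x | x ∈ Hull B ↔ x ∈ U} ∈ residual (ℕ → Bool) := by
    filter_upwards [Filter.eventuallyEq_set.1 hBU] with x hx using hx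
  rcases U.eq_empty_or_nonempty with rfl | ⟨w, hw⟩
  · right
    refine Filter.mem_of_superset hR fun x hx hxB => ?_
    exact (hx.1 hxB)
  · left
    obtain ⟨M, hM⟩ := exists_cyl hU hw
    let t : (Fin M → Bool) → ℕ → Bool := fun s n => if h : n < M then xor (s ⟨n, h⟩) (w n) else
      false
    have h1 : (⋂ s : Fin M → Bool, {x | flip (t s) x ∈ {x | x ∈ Hull B ↔ x ∈ U}}) ∈
        residual (ℕ → Bool) := by
      refine countable_iInter_mem.2 fun s => flip_mem_residual _ hR
    refine Filter.mem_of_superset h1 fun x hx => ?_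
    have h2 := Set.mem_iInter.1 hx fun i => x i
    have h3 : flip (t fun i : Fin M => x i) x ∈ U := hM _ fun j hj => by
      rw [flip_apply]
      simp only [t, hj, dif_pos]
      cases x j <;> cases w j <;> rfl
    have h4 : flip (t fun i : Fin M => x i) x ∈ Hull B := h2.2 h3
    refine hull_tail (M := M) (fun n hn => ?_) h4
    rw [flip_apply]
    have : ¬ n < M := by omega
    simp only [t, this, dif_neg, not_false_eq_true, Bool.false_xor]

theorem determined_iff (B : Set (ℕ → Bool)) :
    (WinsI (Clocked B) ∨ WinsII (Clocked B)) ↔ BaireMeasurableSet (Hull B) := by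
  rw [winsI_iff, winsII_iff]
  constructor
  · rintro (h | h)
    · exact BaireMeasurableSet.of_mem_residual h
    · exact h.baireMeasurableSet
  · exact zero_one

theorem hull_members {F : Filter ℕ} (hF : F ≤ Filter.cofinite) : Hull (Members F) = Members F := by
  ext y
  constructor
  · rintro ⟨x, hx, N, hN⟩
    have h1 : {n | N ≤ n} ∈ F := hF (by
      rw [Filter.mem_cofinite]
      refine (Set.finite_lt_nat N).subset fun n hn => ?_
      simpa using hn)
    change {n | y n = true} ∈ F
    filter_upwards [hx, h1] with n h2 h3 using hN n h3 h2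
  · exact fun hy => ⟨y, hy, 0, fun n _ h => h⟩

theorem not_residual_members {F : Filter ℕ} (hne : F.NeBot) :
    Members F ∉ residual (ℕ → Bool) := by
  intro h
  have h1 := flip_mem_residual (fun _ => true) h
  have h2 : (Members F ∩ {x | flip (fun _ => true) x ∈ Members F}).Nonempty :=
    (dense_of_mem_residual (Filter.inter_mem h h1)).nonempty
  obtain ⟨x, hx1, hx2⟩ := h2
  have h3 : (∅ : Set ℕ) ∈ F := by
    refine Filter.mem_of_superset (Filter.inter_mem hx1 hx2) ?_
    rintro n ⟨h4, h5⟩
    simp only [Set.mem_ofPred_eq] at h4 h5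
    rw [flip_apply, h4] at h5
    simp at h5
  exact hne.ne (Filter.empty_mem_iff_bot.1 h3)

theorem isMeagre_members {F : Filter ℕ} (hne : F.NeBot) (hF : F ≤ Filter.cofinite)
    (h : WinsI (Clocked (Members F)) ∨ WinsII (Clocked (Members F))) :
    IsMeagre (Members F) := by
  rw [winsI_iff, winsII_iff, hull_members hF] at h
  exact h.resolve_left (not_residual_members hne)

theorem not_determined_ultrafilter (U : Ultrafilter ℕ) (hU : (U : Filter ℕ) ≤ Filter.cofinite) :
    ¬ WinsI (Clocked (Members U)) ∧ ¬ WinsII (Clocked (Members U)) := by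
  rw [winsI_iff, winsII_iff, hull_members hU]
  refine ⟨not_residual_members U.neBot, fun h => ?_⟩
  have h1 := flip_mem_residual (fun _ => true) h
  have h2 : ((Members (U : Filter ℕ))ᶜ ∩
      {x | flip (fun _ => true) x ∈ (Members (U : Filter ℕ))ᶜ}).Nonempty :=
    (dense_of_mem_residual (Filter.inter_mem h h1)).nonempty
  obtain ⟨x, hx1, hx2⟩ := h2
  refine hx2 ?_
  have h3 : {n | x n = true}ᶜ ∈ U := by
    rw [Ultrafilter.compl_mem_iff_notMem]
    exact hx1
  refine Filter.mem_of_superset h3 fun n hn => ?_
  change flip (fun _ => true) x n = true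
  rw [flip_apply]
  have : x n ≠ true := hn
  cases h4 : x n with
  | true => exact absurd h4 this
  | false => rfl

end Pool.Agent.Helper56TB
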