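import Mathlib
import Pool.Agent.Helper56_TB.Filters

/-!
# Turing determinacy and the Baire property of upward closed tail sets

For every set `B` of reals, the explicit Turing invariant set `Clocked B` has the following
property: player I wins the game with payoff set `Clocked B` if and only if the closure `Hull B`
of `B` under supersets and finite changes is comeager, and player II wins it if and only if
`Hull B` is meager. So Turing determinacy implies that all upward closed tail sets have the Baire
property, that every filter on the natural numbers is meager, and that there is no nonprincipal
ultrafilter on the natural numbers.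
-/

set_option autoImplicit false

namespace Pool.Agent.Results.MP_917879_lc.MonotoneTailBaire

open Pool.Agent.Helper25TD Pool.Agent.Helper56TB

/-- Determinacy of the Turing invariant set `Clocked B` is equivalent to the Baire property of
`Hull B`; for a filter it implies that the filter is meager, and for a nonprincipal ultrafilter it
fails. -/
theorem result :
    (∀ B : Set (ℕ → Bool), TuringInvariant (Clocked B) ∧
      (WinsI (Clocked B) ↔ Hull B ∈ residual (ℕ → Bool)) ∧
      (WinsII (Clocked B) ↔ IsMeagre (Hull B)) ∧
      (WinsI (Clocked B) ∨ WinsII (Clocked B) ↔ BaireMeasurableSet (Hull B))) ∧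
    (∀ F : Filter ℕ, F.NeBot → F ≤ Filter.cofinite →
      WinsI (Clocked (Members F)) ∨ WinsII (Clocked (Members F)) → IsMeagre (Members F)) ∧
    ∀ U : Ultrafilter ℕ, (U : Filter ℕ) ≤ Filter.cofinite →
      ¬ WinsI (Clocked (Members U)) ∧ ¬ WinsII (Clocked (Members U)) :=
  ⟨fun B => ⟨turingInvariant_clocked B, winsI_iff B, winsII_iff B, determined_iff B⟩,
    fun _ hne hF h => isMeagre_members hne hF h, not_determined_ultrafilter⟩

end Pool.Agent.Results.MP_917879_lc.MonotoneTailBaire
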